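import Mathlib

/-!
# Completions of abstract groups with respect to a class of finite index normal subgroups,
free profinite groups and free profinite products (of two factors).
-/

universe u

open Topology

namespace Pool.Agent.Hhelper13.Piles

section Comp

variable {Γ : Type u} [Group Γ] (p : Subgroup Γ → Prop)

/-- index set: the normal subgroups of finite index satisfying `p`. -/
def Idx : Type u := {N : Subgroup Γ // N.Normal ∧ N.FiniteIndex ∧ p N}

/-- the finite quotients. -/
def Qt (i : Idx p) : Type u := Γ ⧸ i.1

instance (i : Idx p) : Group (Qt p i) :=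
  haveI := i.2.1
  inferInstanceAs (Group (Γ ⧸ i.1))

instance (i : Idx p) : TopologicalSpace (Qt p i) := ⊥

instance (i : Idx p) : DiscreteTopology (Qt p i) := ⟨rfl⟩

instance (i : Idx p) : Finite (Qt p i) :=
  haveI := i.2.2.1
  inferInstanceAs (Finite (Γ ⧸ i.1))

/-- the projection. -/
def prj (i : Idx p) : Γ →* Qt p i :=
  haveI := i.2.1
  QuotientGroup.mk' i.1

lemma prj_surjective (i : Idx p) : Function.Surjective (prj p i) := by
  have := i.2.1
  exact QuotientGroup.mk'_surjective i.1

lemma prj_eq_one (i : Idx p) (x : Γ) : prj p i x = 1 ↔ x ∈ i.1 := by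
  have := i.2.1
  exact QuotientGroup.eq_one_iff (N := i.1) x

/-- the map to the product. -/
def toProd : Γ →* (∀ i : Idx p, Qt p i) := MonoidHom.pi (fun i => prj p i)

/-- the completion, as a subgroup of the product. -/
def CompSub : Subgroup (∀ i : Idx p, Qt p i) := (toProd p).range.topologicalClosure

lemma compSub_isClosed : IsClosed (CompSub p : Set (∀ i : Idx p, Qt p i)) :=
  Subgroup.isClosed_topologicalClosure _

instance : CompactSpace (CompSub p) :=
  isCompact_iff_compactSpace.1 (compSub_isClosed p).isCompact

/-- The canonical map. -/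
def can : Γ →* CompSub p :=
  (toProd p).codRestrict (CompSub p) (fun x => Subgroup.le_topologicalClosure _ ⟨x, rfl⟩)

/-- coordinates -/
def coord (i : Idx p) : CompSub p →* Qt p i where
  toFun z := z.1 i
  map_one' := rfl
  map_mul' _ _ := rfl

lemma coord_can (i : Idx p) (x : Γ) : coord p i (can p x) = prj p i x := rfl

lemma continuous_coord (i : Idx p) : Continuous (coord p i) :=
  (continuous_apply i).comp continuous_subtype_val

lemma denseRange_can : DenseRange (can p) := by
  intro z
  change z ∈ closure (Set.range (can p))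
  have hz : (z.1) ∈ closure (Set.range (toProd p)) := z.2
  have key : (Set.range (toProd p)) = ((↑) : CompSub p → _) '' (Set.range (can p)) := by
    ext y
    constructor
    · rintro ⟨x, rfl⟩
      exact ⟨can p x, ⟨x, rfl⟩, rfl⟩
    · rintro ⟨_, ⟨x, rfl⟩, rfl⟩
      exact ⟨x, rfl⟩
  rw [key] at hz
  exact closure_subtype.2 hz

lemma nhds_one (U : Set (CompSub p)) (hU : IsOpen U) (h1 : (1 : CompSub p) ∈ U) :
    ∃ I : Finset (Idx p), ∀ z : CompSub p, (∀ i ∈ I, coord p i z = 1) → z ∈ U := by
  obtain ⟨V, hV, hVU⟩ := isOpen_induced_iff.1 hU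
  have h1V : (1 : ∀ i : Idx p, Qt p i) ∈ V := by
    rw [← hVU] at h1
    exact h1
  obtain ⟨I, u, hu, hIV⟩ := isOpen_pi_iff.1 hV 1 h1V
  refine ⟨I, fun z hz => ?_⟩
  rw [← hVU]
  apply hIV
  intro i hi
  have := hz i hi
  change z.1 i ∈ u i
  have h2 : z.1 i = 1 := this
  rw [h2]
  exact (hu i hi).2

lemma ext_of_can {P : Type*} [Monoid P] [TopologicalSpace P] [T2Space P]
    (f g : CompSub p →ₜ* P) (h : ∀ x, f (can p x) = g (can p x)) : f = g := by
  have := (denseRange_can p).equalizer f.continuous_toFun g.continuous_toFun (funext h)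
  ext x
  exact congrFun this x

/-- universal property -/
theorem exists_extend (P : ProfiniteGrp.{u}) (f : Γ →* P)
    (hf : ∀ M : OpenNormalSubgroup P, p (M.toSubgroup.comap f)) :
    ∃ k : CompSub p →ₜ* P, ∀ x, k (can p x) = f x := by
  classical
  -- the graph closure
  let gr : Γ →* (CompSub p) × P := (can p).prod f
  let R : Subgroup ((CompSub p) × P) := gr.range.topologicalClosure
  have hRc : IsClosed (R : Set ((CompSub p) × P)) := Subgroup.isClosed_topologicalClosure _
  have : CompactSpace R := isCompact_iff_compactSpace.1 hRc.isCompact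
  have hgr : ∀ x, gr x ∈ R := fun x => Subgroup.le_topologicalClosure _ ⟨x, rfl⟩
  -- index attached to an open normal subgroup of P
  have hfin : ∀ M : OpenNormalSubgroup P, (M.toSubgroup.comap f).FiniteIndex := by
    intro M
    have : Finite (P ⧸ M.toSubgroup) := Subgroup.quotient_finite_of_isOpen _ M.isOpen'
    have : M.toSubgroup.FiniteIndex := Subgroup.finiteIndex_of_finite_quotient
    rw [Subgroup.finiteIndex_iff, Subgroup.index_comap]
    exact (Subgroup.instFiniteIndex_subgroupOf M.toSubgroup f.range).index_ne_zero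
  let idx : OpenNormalSubgroup P → Idx p := fun M =>
    ⟨M.toSubgroup.comap f, inferInstance, hfin M, hf M⟩
  have key : ∀ (M : OpenNormalSubgroup P) (z : (CompSub p) × P), z ∈ R →
      ∃ x : Γ, coord p (idx M) z.1 = prj p (idx M) x ∧ (f x)⁻¹ * z.2 ∈ M.toSubgroup := by
    intro M z hz
    let m : (CompSub p) × P → Qt p (idx M) × (P ⧸ M.toSubgroup) :=
      fun z => (coord p (idx M) z.1, (z.2 : P ⧸ M.toSubgroup))
    have hm : Continuous m := by
      refine Continuous.prodMk ((continuous_coord p _).comp continuous_fst) ?_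
      exact continuous_quot_mk.comp continuous_snd
    have : DiscreteTopology (P ⧸ M.toSubgroup) := QuotientGroup.discreteTopology M.isOpen'
    let D : Set (Qt p (idx M) × (P ⧸ M.toSubgroup)) :=
      Set.range fun x : Γ => (prj p (idx M) x, (f x : P ⧸ M.toSubgroup))
    have hD : IsClosed (m ⁻¹' D) := (isClosed_discrete D).preimage hm
    have hsub : (R : Set ((CompSub p) × P)) ⊆ m ⁻¹' D := by
      apply closure_minimal _ hD
      rintro _ ⟨x, rfl⟩
      exact ⟨x, rfl⟩
    obtain ⟨x, hx⟩ := hsub hz
    have h1 : prj p (idx M) x = coord p (idx M) z.1 := congrArg Prod.fst hx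
    have h2 : (f x : P ⧸ M.toSubgroup) = (z.2 : P ⧸ M.toSubgroup) := congrArg Prod.snd hx
    exact ⟨x, h1.symm, QuotientGroup.eq.1 h2⟩
  have inj : ∀ z : (CompSub p) × P, z ∈ R → z.1 = 1 → z.2 = 1 := by
    intro z hz h1
    by_contra hne
    obtain ⟨M, hM⟩ := ProfiniteGrp.exist_openNormalSubgroup_sub_open_nhds_of_one
      (G := P) (U := {z.2}ᶜ) isOpen_compl_singleton (by
        intro h
        exact hne (by simpa using h.symm))
    obtain ⟨x, hx1, hx2⟩ := key M z hz
    rw [h1, map_one] at hx1
    have hxN := (prj_eq_one p _ x).1 hx1.symm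
    have hfx : f x ∈ M.toSubgroup := hxN
    have : z.2 ∈ M.toSubgroup := by
      have := M.toSubgroup.mul_mem hfx hx2
      simpa using this
    exact hM this rfl
  -- projections
  let π₁ : R →* CompSub p := (MonoidHom.fst _ _).comp R.subtype
  have hπ₁c : Continuous π₁ := continuous_fst.comp continuous_subtype_val
  have hinj : Function.Injective π₁ := by
    rw [injective_iff_map_eq_one]
    intro z hz
    have h2 := inj z.1 z.2 hz
    apply Subtype.ext
    exact Prod.ext hz h2
  have hsurj : Function.Surjective π₁ := by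
    have hcl : IsClosed (Set.range π₁) := (isCompact_range hπ₁c).isClosed
    have hd : Set.range (can p) ⊆ Set.range π₁ := by
      rintro _ ⟨x, rfl⟩
      exact ⟨⟨gr x, hgr x⟩, rfl⟩
    have : closure (Set.range (can p)) ⊆ Set.range π₁ := closure_minimal hd hcl
    intro z
    exact this (denseRange_can p z)
  let e : R ≃ CompSub p := Equiv.ofBijective π₁ ⟨hinj, hsurj⟩
  let eh : R ≃ₜ CompSub p := Continuous.homeoOfEquivCompactToT2 (f := e) hπ₁c
  let em : R ≃* CompSub p := MulEquiv.ofBijective π₁ ⟨hinj, hsurj⟩
  let k : CompSub p →* P := ((MonoidHom.snd _ _).comp R.subtype).comp em.symm.toMonoidHom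
  have hk : Continuous k := by
    have h1 : Continuous (fun z => (eh.symm z : R)) := eh.symm.continuous
    have h2 : Continuous (fun r : R => (r : (CompSub p) × P).2) :=
      continuous_snd.comp continuous_subtype_val
    exact h2.comp h1
  refine ⟨⟨k, hk⟩, fun x => ?_⟩
  change ((em.symm (can p x) : R) : (CompSub p) × P).2 = f x
  have : em.symm (can p x) = ⟨gr x, hgr x⟩ := by
    rw [MulEquiv.symm_apply_eq]
    rfl
  rw [this]
  rfl

/-- continuity of a homomorphism from a topological group to the completion -/
lemma continuous_to_compl {C : Type*} [Group C] [TopologicalSpace C] [IsTopologicalGroup C]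
    (f : C →* CompSub p) (h : ∀ i, IsOpen (((coord p i).comp f).ker : Set C)) : Continuous f := by
  have : Continuous (fun c => (f c).1) := by
    refine continuous_pi fun i => ?_
    have hc : Continuous ((coord p i).comp f) := by
      apply continuous_of_continuousAt_one
      rw [ContinuousAt, map_one, nhds_discrete (Qt p i), Filter.tendsto_pure]
      exact (h i).mem_nhds (one_mem _)
    exact hc
  exact Continuous.subtype_mk this _

end Comp

end Pool.Agent.Hhelper13.Piles
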