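import Mathlib

/-!
# Profinite piles, projective piles, free profinite groups and free profinite products
-/

universe u

namespace Pool.Agent.Hhelper13.Piles

/-- A (profinite) pile: a profinite group `G` acting continuously on a profinite space `T`.
(We write the action on the left; a right action `t ^ g` corresponds to `g⁻¹ • t`, and the two
languages have the same stabilisers.) -/
structure Pile : Type (u + 1) where
  /-- the profinite group -/
  G : ProfiniteGrp.{u}
  /-- the profinite space -/
  T : Profinite.{u}
  /-- the action -/
  [act : MulAction G T]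
  /-- continuity of the action -/
  [cont : ContinuousSMul G T]

attribute [instance] Pile.act Pile.cont

/-- A morphism of piles: a continuous homomorphism together with a continuous map which is
compatible with the actions. -/
structure Pile.Hom (B A : Pile.{u}) where
  /-- the homomorphism of groups -/
  onG : B.G →ₜ* A.G
  /-- the map of spaces -/
  onT : C(B.T, A.T)
  /-- equivariance -/
  map_smul : ∀ (b : B.G) (y : B.T), onT (b • y) = onG b • onT y

/-- `α` is an epimorphism of piles: it is surjective on groups and on spaces, and every `x` has a
preimage `y` such that the stabiliser of `y` is mapped onto the stabiliser of `x`. -/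
structure Pile.Hom.IsEpi {B A : Pile.{u}} (α : B.Hom A) : Prop where
  surjG : Function.Surjective α.onG
  surjT : Function.Surjective α.onT
  surjStab : ∀ x : A.T, ∃ y : B.T, α.onT y = x ∧
    α.onG '' {b : B.G | b • y = y} = {a : A.G | a • x = x}

/-- The map induced by a morphism of piles on the spaces of orbits. -/
def Pile.Hom.orbitMap {B A : Pile.{u}} (α : B.Hom A) :
    Quotient (MulAction.orbitRel B.G B.T) → Quotient (MulAction.orbitRel A.G A.T) :=
  Quotient.map α.onT (by
    rintro y y' ⟨b, hb⟩
    exact ⟨α.onG b, by
      have : b • y' = y := hb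
      change α.onG b • α.onT y' = α.onT y
      rw [← α.map_smul, this]⟩)

/-- `α` is rigid: it maps every stabiliser `B_y` isomorphically onto the stabiliser of the image
of `y`, and the induced map of orbit spaces is a homeomorphism. -/
structure Pile.Hom.IsRigid {B A : Pile.{u}} (α : B.Hom A) : Prop where
  bijStab : ∀ y : B.T, Set.BijOn α.onG {b : B.G | b • y = y} {a : A.G | a • α.onT y = α.onT y}
  homeo : IsHomeomorph α.orbitMap

/-- A pile `P` is projective: for every morphism `φ : P → A` and every rigid epimorphism
`α : B → A` with `B` finite there is a morphism `γ : P → B` with `α ∘ γ = φ`. -/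
def Pile.IsProjective (P : Pile.{u}) : Prop :=
  ∀ (A B : Pile.{u}) (φ : P.Hom A) (α : B.Hom A), Finite B.G → Finite B.T →
    α.IsEpi → α.IsRigid →
    ∃ γ : P.Hom B, (∀ g, α.onG (γ.onG g) = φ.onG g) ∧ (∀ t, α.onT (γ.onT t) = φ.onT t)

/-- A map `f` from a set to a profinite group converges to `1`: every open neighbourhood of `1`
contains all but finitely many of the values. -/
def ConvergesToOne {S : Type u} {P : ProfiniteGrp.{u}} (f : S → P) : Prop :=
  ∀ U : Set P, IsOpen U → (1 : P) ∈ U → {x : S | f x ∉ U}.Finite

/-- `F` is a free profinite group on the set `S` (converging to `1`) via `s : S → F`. -/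
structure IsFreeProfinite {S : Type u} {F : ProfiniteGrp.{u}} (s : S → F) : Prop where
  conv : ConvergesToOne s
  univ : ∀ (P : ProfiniteGrp.{u}) (f : S → P), ConvergesToOne f →
    ∃! k : F →ₜ* P, ∀ x, k (s x) = f x

/-- `H`, with the homomorphisms `i : C → H` and `j : F → H`, is the free profinite product of the
profinite groups `C` and `F`. -/
def IsFreeProfiniteProduct {C F H : ProfiniteGrp.{u}} (i : C →ₜ* H) (j : F →ₜ* H) : Prop :=
  ∀ (P : ProfiniteGrp.{u}) (f : C →ₜ* P) (g : F →ₜ* P),
    ∃! k : H →ₜ* P, (∀ c, k (i c) = f c) ∧ (∀ x, k (j x) = g x)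

end Pool.Agent.Hhelper13.Piles
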