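import Pool.Agent.Hhelper13.Pile.Defs
import Pool.Agent.Hhelper13.Pile.Comp

/-!
# Existence of free profinite groups and of free profinite products `C ⨿ F`
-/

universe u

namespace Pool.Agent.Hhelper13.Piles

section FreeGrp

variable (S : Type u)

/-- the class of normal subgroups defining the free profinite group on `S` -/
def pF (N : Subgroup (FreeGroup S)) : Prop := {x : S | FreeGroup.of x ∉ N}.Finite

/-- the free profinite group on a set `S` converging to `1` -/
def FreeProf : ProfiniteGrp.{u} := ProfiniteGrp.of (CompSub (pF S))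

/-- the generators -/
def genF (x : S) : FreeProf S := can (pF S) (FreeGroup.of x)

lemma convergesToOne_comp {S : Type u} {P Q : ProfiniteGrp.{u}} {f : S → P}
    (hf : ConvergesToOne f) (k : P →ₜ* Q) : ConvergesToOne (fun x => k (f x)) := by
  intro U hU h1
  exact hf (k ⁻¹' U) (hU.preimage k.continuous_toFun) (by
    change k 1 ∈ U
    rw [map_one]
    exact h1)

lemma genF_conv : ConvergesToOne (genF S) := by
  intro U hU h1
  obtain ⟨I, hI⟩ := nhds_one (pF S) U hU h1
  have hfin : (⋃ i ∈ I, {x : S | FreeGroup.of x ∉ i.1}).Finite :=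
    Set.Finite.biUnion I.finite_toSet (fun i _ => i.2.2.2)
  refine hfin.subset ?_
  intro x hx
  by_contra hcon
  simp only [Set.mem_iUnion, Set.mem_ofPred_eq, not_exists, not_not] at hcon
  apply hx
  apply hI
  intro i hi
  exact (prj_eq_one (pF S) i _).2 (hcon i hi)

theorem isFreeProfinite_genF : IsFreeProfinite (genF S) where
  conv := genF_conv S
  univ := by
    intro P f hf
    obtain ⟨k, hk⟩ := exists_extend (pF S) P (FreeGroup.lift f) (by
      intro M
      change {x : S | FreeGroup.of x ∉ M.toSubgroup.comap (FreeGroup.lift f)}.Finite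
      have := hf (M : Set P) M.isOpen' (one_mem M)
      refine this.subset ?_
      intro x hx hx'
      apply hx
      change FreeGroup.lift f (FreeGroup.of x) ∈ M.toSubgroup
      rw [FreeGroup.lift_apply_of]
      exact hx')
    refine ⟨k, fun x => ?_, ?_⟩
    · change k (can (pF S) (FreeGroup.of x)) = f x
      rw [hk, FreeGroup.lift_apply_of]
    · intro k' hk'
      apply ext_of_can (pF S) k' k
      intro z
      let k₂ : CompSub (pF S) →ₜ* P := k'
      have : (k₂ : CompSub (pF S) →* P).comp (can (pF S)) =
          (k : CompSub (pF S) →* P).comp (can (pF S)) := by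
        apply FreeGroup.ext_hom
        intro x
        have h1 : k' (can (pF S) (FreeGroup.of x)) = f x := hk' x
        have h2 : k (can (pF S) (FreeGroup.of x)) = f x := by rw [hk, FreeGroup.lift_apply_of]
        exact h1.trans h2.symm
      exact DFunLike.congr_fun this z

end FreeGrp

section Coprod

variable (C : ProfiniteGrp.{u}) (S : Type u)

/-- the abstract free product -/
abbrev Gam : Type u := Monoid.Coprod C (FreeGroup S)

/-- the class of normal subgroups defining the free profinite product -/
def pH (N : Subgroup (Gam C S)) : Prop :=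
  IsOpen ((N.comap (Monoid.Coprod.inl : C →* Gam C S) : Subgroup C) : Set C) ∧
    {x : S | (Monoid.Coprod.inr (FreeGroup.of x) : Gam C S) ∉ N}.Finite

/-- the free profinite product of `C` and the free profinite group on `S` -/
def FreeProd : ProfiniteGrp.{u} := ProfiniteGrp.of (CompSub (pH C S))

/-- the first factor -/
def inC : C →ₜ* FreeProd C S where
  toMonoidHom := (can (pH C S)).comp Monoid.Coprod.inl
  continuous_toFun := by
    apply continuous_to_compl (pH C S) (C := C)
    intro i
    have : (((coord (pH C S) i).comp ((can (pH C S)).comp Monoid.Coprod.inl)).ker : Set C) =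
        ((i.1.comap (Monoid.Coprod.inl : C →* Gam C S) : Subgroup C) : Set C) := by
      ext c
      exact prj_eq_one (pH C S) i _
    rw [this]
    exact i.2.2.2.1

lemma conv_inr : ConvergesToOne (P := FreeProd C S)
    (fun x : S => can (pH C S) (Monoid.Coprod.inr (FreeGroup.of x))) := by
  intro U hU h1
  obtain ⟨I, hI⟩ := nhds_one (pH C S) U hU h1
  have hfin : (⋃ i ∈ I, {x : S | (Monoid.Coprod.inr (FreeGroup.of x) : Gam C S) ∉ i.1}).Finite :=
    Set.Finite.biUnion I.finite_toSet (fun i _ => i.2.2.2.2)
  refine hfin.subset ?_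
  intro x hx
  by_contra hcon
  simp only [Set.mem_iUnion, Set.mem_ofPred_eq, not_exists, not_not] at hcon
  apply hx
  apply hI
  intro i hi
  exact (prj_eq_one (pH C S) i _).2 (hcon i hi)

/-- the second factor -/
noncomputable def inF : FreeProf S →ₜ* FreeProd C S :=
  ((isFreeProfinite_genF S).univ (FreeProd C S) _ (conv_inr C S)).choose

lemma inF_gen (x : S) :
    inF C S (genF S x) = can (pH C S) (Monoid.Coprod.inr (FreeGroup.of x)) :=
  ((isFreeProfinite_genF S).univ (FreeProd C S) _ (conv_inr C S)).choose_spec.1 x

theorem isFreeProfiniteProduct : IsFreeProfiniteProduct (inC C S) (inF C S) := by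
  intro P f g
  let φ : Gam C S →* P := Monoid.Coprod.lift (f : C →* P) (FreeGroup.lift fun x => g (genF S x))
  obtain ⟨k, hk⟩ := exists_extend (pH C S) P φ (by
    intro M
    constructor
    · have : ((Subgroup.comap (Monoid.Coprod.inl : C →* Gam C S) (M.toSubgroup.comap φ) :
          Subgroup C) : Set C) = f ⁻¹' (M : Set P) := by
        ext c
        change φ (Monoid.Coprod.inl c) ∈ M.toSubgroup ↔ f c ∈ M.toSubgroup
        have : φ (Monoid.Coprod.inl c) = f c := Monoid.Coprod.lift_apply_inl _ _ c
        rw [this]
      rw [this]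
      exact M.isOpen'.preimage f.continuous_toFun
    · have := convergesToOne_comp (genF_conv S) g (M : Set P) M.isOpen' (one_mem M)
      refine this.subset ?_
      intro x hx hx'
      apply hx
      change φ (Monoid.Coprod.inr (FreeGroup.of x)) ∈ M.toSubgroup
      have h2 : φ (Monoid.Coprod.inr (FreeGroup.of x)) = g (genF S x) := by
        change Monoid.Coprod.lift _ _ _ = _
        rw [Monoid.Coprod.lift_apply_inr, FreeGroup.lift_apply_of]
      rw [h2]
      exact hx')
  have hkC : ∀ c, k (inC C S c) = f c := by
    intro c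
    change k (can (pH C S) (Monoid.Coprod.inl c)) = f c
    rw [hk]
    exact Monoid.Coprod.lift_apply_inl _ _ c
  have hkF0 : ∀ x : S, k (can (pH C S) (Monoid.Coprod.inr (FreeGroup.of x))) = g (genF S x) := by
    intro x
    rw [hk]
    change Monoid.Coprod.lift _ _ _ = _
    rw [Monoid.Coprod.lift_apply_inr, FreeGroup.lift_apply_of]
  have hkF : ∀ x, k (inF C S x) = g x := by
    have huniq := ((isFreeProfinite_genF S).univ P (fun x => g (genF S x))
      (convergesToOne_comp (genF_conv S) g)).unique
      (y₁ := (ContinuousMonoidHom.comp k (inF C S) : FreeProf S →ₜ* P)) (y₂ := g)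
      (by
        intro x
        change k (inF C S (genF S x)) = g (genF S x)
        rw [inF_gen]
        exact hkF0 x)
      (fun x => rfl)
    intro x
    exact DFunLike.congr_fun huniq x
  refine ⟨k, ⟨hkC, hkF⟩, ?_⟩
  rintro k' ⟨h1, h2⟩
  apply ext_of_can (pH C S) k' k
  intro z
  let k₂ : CompSub (pH C S) →ₜ* P := k'
  have : (k₂ : CompSub (pH C S) →* P).comp (can (pH C S)) =
      (k : CompSub (pH C S) →* P).comp (can (pH C S)) := by
    apply Monoid.Coprod.hom_ext
    · ext c
      exact (h1 c).trans (hkC c).symm
    · apply FreeGroup.ext_hom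
      intro x
      have h3 : k' (inF C S (genF S x)) = g (genF S x) := h2 _
      rw [inF_gen] at h3
      exact h3.trans (hkF0 x).symm
  exact DFunLike.congr_fun this z

end Coprod

end Pool.Agent.Hhelper13.Piles
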