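import Pool.Agent.Hhelper13.Pile.Zorn
import Pool.Agent.Hhelper13.Pile.Free

/-!
# Embedding a pile into a homogeneous pile, and the main theorem
-/

universe u

open Topology

namespace Pool.Agent.Hhelper13.Piles

section Quot

variable {H : Type u} [Group H] [TopologicalSpace H] [IsTopologicalGroup H] [CompactSpace H]
  [TotallyDisconnectedSpace H]

/-- the quotient of a profinite group by a closed subgroup is totally separated -/
lemma quot_totSep (D : Subgroup H) (hD : IsClosed (D : Set H)) :
    TotallySeparatedSpace (H ⧸ D) := by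
  rw [totallySeparatedSpace_iff_exists_isClopen]
  intro x y hxy
  obtain ⟨a, rfl⟩ := QuotientGroup.mk_surjective x
  obtain ⟨b, rfl⟩ := QuotientGroup.mk_surjective y
  -- `b D` is closed and does not contain `a`
  have hbD : IsClosed {z : H | b⁻¹ * z ∈ D} := hD.preimage (continuous_const_mul b⁻¹)
  have ha : a ∈ {z : H | b⁻¹ * z ∈ D}ᶜ := by
    intro h
    exact hxy (QuotientGroup.eq.2 h).symm
  obtain ⟨W, ⟨haW, hW⟩, hWD⟩ := (nhds_basis_clopen a).mem_iff.1
    (hbD.isOpen_compl.mem_nhds ha)
  let V : Set H := {z | ∃ d ∈ D, z * d ∈ W}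
  have hVo : IsOpen V := by
    have : V = ⋃ d ∈ D, (fun z : H => z * d) ⁻¹' W := by
      ext z
      simp [V]
    rw [this]
    exact isOpen_biUnion fun d _ => hW.2.preimage (continuous_mul_const d)
  have hVc : IsClosed V := by
    have : V = (fun x : H × H => x.1 * x.2⁻¹) '' (W ×ˢ (D : Set H)) := by
      ext z
      constructor
      · rintro ⟨d, hd, h⟩
        exact ⟨(z * d, d), ⟨h, hd⟩, by simp⟩
      · rintro ⟨⟨w, d⟩, ⟨hw, hd⟩, rfl⟩
        exact ⟨d, hd, by simpa using hw⟩
    rw [this]
    apply IsCompact.isClosed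
    apply IsCompact.image
    · exact hW.1.isCompact.prod hD.isCompact
    · exact continuous_fst.mul continuous_snd.inv
  have hVsat : ∀ z : H, (z : H ⧸ D) ∈ (QuotientGroup.mk '' V : Set (H ⧸ D)) ↔ z ∈ V := by
    intro z
    constructor
    · rintro ⟨w, ⟨d, hd, hw⟩, h⟩
      have h1 : w⁻¹ * z ∈ D := QuotientGroup.eq.1 h
      refine ⟨(w⁻¹ * z)⁻¹ * d, D.mul_mem (D.inv_mem h1) hd, ?_⟩
      have : z * ((w⁻¹ * z)⁻¹ * d) = w * d := by group
      rw [this]
      exact hw
    · intro h
      exact ⟨z, h, rfl⟩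
  have hpre : (QuotientGroup.mk : H → H ⧸ D) ⁻¹' (QuotientGroup.mk '' V) = V := by
    ext z
    exact hVsat z
  have hqm : IsQuotientMap (QuotientGroup.mk : H → H ⧸ D) := QuotientGroup.isQuotientMap_mk D
  refine ⟨QuotientGroup.mk '' V, ⟨?_, ?_⟩, ?_, ?_⟩
  · rw [← hqm.isClosed_preimage, hpre]
    exact hVc
  · rw [← hqm.isOpen_preimage, hpre]
    exact hVo
  · rw [hVsat]
    exact ⟨1, D.one_mem, by rw [mul_one]; exact haW⟩
  · rw [Set.mem_compl_iff, hVsat]
    rintro ⟨d, hd, h⟩
    apply hWD h
    change b⁻¹ * (b * d) ∈ D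
    rw [inv_mul_cancel_left]
    exact hd

end Quot

section Graph

/-- a closed subgroup of `G × H` projecting bijectively onto `G` is the graph of a continuous
homomorphism -/
lemma graph_hom {G H : Type u} [Group G] [TopologicalSpace G] [IsTopologicalGroup G]
    [T2Space G] [CompactSpace G]
    [Group H] [TopologicalSpace H] [IsTopologicalGroup H] [CompactSpace H]
    (R : Subgroup (G × H)) (hR : IsClosed (R : Set (G × H)))
    (h1 : ∀ g, ∃ r ∈ R, r.1 = g) (h2 : ∀ r ∈ R, r.1 = 1 → r = 1) :
    ∃ γ : G →ₜ* H, ∀ g, (g, γ g) ∈ R := by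
  have : CompactSpace R := isCompact_iff_compactSpace.1 hR.isCompact
  let π₁ : R →* G := (MonoidHom.fst _ _).comp R.subtype
  have hπ₁c : Continuous π₁ := continuous_fst.comp continuous_subtype_val
  have hinj : Function.Injective π₁ := by
    rw [injective_iff_map_eq_one]
    intro z hz
    exact Subtype.ext (h2 z.1 z.2 hz)
  have hsurj : Function.Surjective π₁ := by
    intro g
    obtain ⟨r, hr, hg⟩ := h1 g
    exact ⟨⟨r, hr⟩, hg⟩
  let e : R ≃ G := Equiv.ofBijective π₁ ⟨hinj, hsurj⟩
  let eh : R ≃ₜ G := Continuous.homeoOfEquivCompactToT2 (f := e) hπ₁c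
  let em : R ≃* G := MulEquiv.ofBijective π₁ ⟨hinj, hsurj⟩
  let k : G →* H := ((MonoidHom.snd _ _).comp R.subtype).comp em.symm.toMonoidHom
  have hk : Continuous k := by
    have h1 : Continuous (fun z => (eh.symm z : R)) := eh.symm.continuous
    have h2 : Continuous (fun r : R => (r : G × H).2) :=
      continuous_snd.comp continuous_subtype_val
    exact h2.comp h1
  refine ⟨⟨k, hk⟩, fun g => ?_⟩
  have hg : ((em.symm g : R) : G × H) = (g, k g) := by
    have h3 : em (em.symm g) = g := em.apply_symm_apply g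
    exact Prod.ext h3 rfl
  change (g, k g) ∈ R
  rw [← hg]
  exact (em.symm g).2

end Graph

section Emb

variable (P : Pile.{u})

/-- index set of the homogeneous pile -/
def Ix : Type u := {p : OpenNormalSubgroup P.G × Set P.T //
  IsClopen p.2 ∧ ∀ n ∈ p.1.toSubgroup, ∀ t, n • t ∈ p.2 ↔ t ∈ p.2}

/-- open normal subgroup -/
abbrev nn (i : Ix P) : Subgroup P.G := i.1.1.toSubgroup

instance (i : Ix P) : Finite (P.G ⧸ nn P i) :=
  Subgroup.quotient_finite_of_isOpen _ i.1.1.isOpen'

/-- finite sets -/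
def Xi (i : Ix P) : Type u := P.G ⧸ nn P i → Bool

instance (i : Ix P) : Finite (Xi P i) := inferInstanceAs (Finite (P.G ⧸ nn P i → Bool))
instance (i : Ix P) : TopologicalSpace (Xi P i) := ⊥
instance (i : Ix P) : DiscreteTopology (Xi P i) := ⟨rfl⟩

/-- finite groups -/
def Fi (i : Ix P) : Type u := (P.G ⧸ nn P i) × Equiv.Perm (Xi P i)

instance (i : Ix P) : Group (Fi P i) :=
  inferInstanceAs (Group ((P.G ⧸ nn P i) × Equiv.Perm (Xi P i)))
instance (i : Ix P) : Finite (Fi P i) :=
  inferInstanceAs (Finite ((P.G ⧸ nn P i) × Equiv.Perm (Xi P i)))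
instance (i : Ix P) : TopologicalSpace (Fi P i) := ⊥
instance (i : Ix P) : DiscreteTopology (Fi P i) := ⟨rfl⟩

/-- the permutation of the set of functions -/
def tau (i : Ix P) : (P.G ⧸ nn P i) →* Equiv.Perm (Xi P i) where
  toFun a :=
    { toFun := fun f x => f (x * a)
      invFun := fun f x => f (x * a⁻¹)
      left_inv := fun f => funext fun x => by
        change f (x * a⁻¹ * a) = f x
        rw [inv_mul_cancel_right]
      right_inv := fun f => funext fun x => by
        change f (x * a * a⁻¹) = f x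
        rw [mul_inv_cancel_right] }
  map_one' := by
    ext f
    change (fun x => f (x * 1)) = f
    funext x
    rw [mul_one]
  map_mul' a b := by
    ext f
    change (fun x => f (x * (a * b))) = fun x => f (x * a * b)
    funext x
    rw [mul_assoc]

/-- the big group -/
abbrev Abig : Type u := ∀ i : Ix P, Fi P i

/-- the map of the group into the big group -/
def phi : P.G →* Abig P :=
  MonoidHom.pi fun i =>
    ((MonoidHom.prod (MonoidHom.id _) (tau P i)).comp (QuotientGroup.mk' (nn P i)) :
      P.G →* (P.G ⧸ nn P i) × Equiv.Perm (Xi P i))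

lemma phi_snd (g : P.G) (i : Ix P) (f : Xi P i) (x : P.G ⧸ nn P i) :
    (phi P g i).2 f x = f (x * (g : P.G ⧸ nn P i)) := rfl

lemma phi_injective : Function.Injective (phi P) := by
  rw [injective_iff_map_eq_one]
  intro g hg
  by_contra hne
  obtain ⟨N, hN⟩ := ProfiniteGrp.exist_openNormalSubgroup_sub_open_nhds_of_one
    (G := P.G) (U := {g}ᶜ) isOpen_compl_singleton (by
      intro h
      exact hne (by simpa using h.symm))
  let i : Ix P := ⟨(N, ∅), isClopen_empty, fun _ _ _ => Iff.rfl⟩
  have h1 : (g : P.G ⧸ nn P i) = 1 := congrArg Prod.fst (congrFun hg i)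
  have h2 : g ∈ N.toSubgroup := (QuotientGroup.eq_one_iff g).1 h1
  exact hN h2 rfl

lemma phi_continuous : Continuous (phi P) := by
  refine continuous_pi fun i => ?_
  let f : P.G →* Fi P i := (Pi.evalMonoidHom (Fi P) i).comp (phi P)
  change Continuous f
  apply continuous_of_continuousAt_one f
  rw [ContinuousAt, map_one, nhds_discrete (Fi P i), Filter.tendsto_pure]
  have hle : nn P i ≤ f.ker := by
    intro n hn
    rw [MonoidHom.mem_ker]
    change (MonoidHom.prod (MonoidHom.id _) (tau P i)) ((n : P.G ⧸ nn P i)) = 1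
    rw [(QuotientGroup.eq_one_iff n).2 hn, map_one]
  exact (Subgroup.isOpen_mono hle i.1.1.isOpen').mem_nhds (one_mem f.ker)

open Classical in
/-- the codes -/
noncomputable def code (i : Ix P) (t : P.T) : Xi P i := fun x => decide (x.out • t ∈ i.1.2)

open Classical in
lemma code_mk (i : Ix P) (t : P.T) (g : P.G) :
    code P i t (g : P.G ⧸ nn P i) = decide (g • t ∈ i.1.2) := by
  obtain ⟨m, hm⟩ := QuotientGroup.mk_out_eq_mul (nn P i) g
  have h1 : ((g : P.G ⧸ nn P i).out) • t ∈ i.1.2 ↔ g • t ∈ i.1.2 := by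
    rw [hm]
    have : g * m.1 = (g * m.1 * g⁻¹) * g := by group
    rw [this, mul_smul]
    exact i.2.2 _ (Subgroup.Normal.conj_mem inferInstance m.1 m.2 g) _
  exact decide_eq_decide.2 h1

lemma code_smul (i : Ix P) (t : P.T) (g : P.G) : code P i (g • t) = (phi P g i).2 (code P i t) := by
  funext x
  obtain ⟨r, rfl⟩ := QuotientGroup.mk_surjective x
  rw [phi_snd, ← QuotientGroup.mk_mul, code_mk, code_mk, mul_smul]

lemma code_continuous (i : Ix P) : Continuous (code P i) := by
  classical
  rw [continuous_discrete_rng]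
  intro y
  have : code P i ⁻¹' {y} = ⋂ (x : P.G ⧸ nn P i),
      {t : P.T | decide (x.out • t ∈ i.1.2) = y x} := by
    ext t
    simp only [Set.mem_preimage, Set.mem_singleton_iff, Set.mem_iInter, Set.mem_ofPred_eq]
    constructor
    · intro h x
      exact congrFun h x
    · intro h
      funext x
      exact h x
  rw [this]
  refine isOpen_iInter_of_finite fun x => ?_
  have hcl : IsClopen {t : P.T | x.out • t ∈ i.1.2} :=
    i.2.1.preimage (continuous_const_smul x.out)
  rcases hb : y x with _ | _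
  · have : {t : P.T | decide (x.out • t ∈ i.1.2) = false} = {t : P.T | x.out • t ∈ i.1.2}ᶜ := by
      ext s
      simp
    rw [this]
    exact hcl.1.isOpen_compl
  · have : {t : P.T | decide (x.out • t ∈ i.1.2) = true} = {t : P.T | x.out • t ∈ i.1.2} := by
      ext s
      simp
    rw [this]
    exact hcl.2

lemma code_injective (t t' : P.T) (h : ∀ i, code P i t = code P i t') : t = t' := by
  classical
  by_contra hne
  obtain ⟨U, ⟨htU, hU⟩, hUt⟩ := (nhds_basis_clopen t).mem_iff.1
    (isOpen_compl_singleton.mem_nhds (show t ∈ ({t'}ᶜ : Set P.T) from hne))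
  obtain ⟨N, hN⟩ := ProfiniteGrp.exist_openNormalSubgroup_sub_open_nhds_of_one
    (G := P.G) (U := {r : P.G | ∀ s ∈ U, r • s ∈ U}) (open_stab U hU) (by
      intro s hs
      rw [one_smul]
      exact hs)
  let i : Ix P := ⟨(N, U), hU, fun n hn s => ⟨fun h => by
    have := hN (N.toSubgroup.inv_mem hn) _ h
    rwa [inv_smul_smul] at this, fun h => hN hn s h⟩⟩
  have h1 := congrFun (h i) ((1 : P.G) : P.G ⧸ nn P i)
  rw [code_mk, code_mk, one_smul, one_smul, decide_eq_decide] at h1
  exact hUt (h1.1 htU) rfl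

/-- base point -/
def z0 (i : Ix P) : Xi P i := fun _ => false

/-- stabiliser of the base point -/
def CSub : Subgroup (Abig P) where
  carrier := {a | ∀ i, (a i).2 (z0 P i) = z0 P i}
  one_mem' _ := rfl
  mul_mem' {a b} ha hb i := by
    change (a i).2 ((b i).2 (z0 P i)) = z0 P i
    rw [hb i, ha i]
  inv_mem' {a} ha i := by
    change (a i).2⁻¹ (z0 P i) = z0 P i
    rw [Equiv.Perm.inv_eq_iff_eq]
    exact (ha i).symm

lemma ev_continuous (i : Ix P) (z : Xi P i) :
    Continuous (fun a : Abig P => ((a i).2 z : Xi P i)) :=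
  (continuous_of_discreteTopology (f := fun b : Fi P i => (b.2 z : Xi P i))).comp
    (continuous_apply i)

lemma CSub_closed : IsClosed (CSub P : Set (Abig P)) := by
  have : (CSub P : Set (Abig P)) = ⋂ i, {a | (a i).2 (z0 P i) = z0 P i} := by
    ext a
    simp only [Set.mem_iInter]
    exact Iff.rfl
  rw [this]
  exact isClosed_iInter fun i => isClosed_eq (ev_continuous P i _) continuous_const

instance : CompactSpace (CSub P) := isCompact_iff_compactSpace.1 (CSub_closed P).isCompact

/-- the profinite groups involved -/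
abbrev Ab : ProfiniteGrp.{u} := ProfiniteGrp.of (Abig P)
/-- the profinite groups involved -/
abbrev Cb : ProfiniteGrp.{u} := ProfiniteGrp.of (CSub P)

/-- the generators of the big group -/
abbrev Sg : Type u := Σ i : Ix P, Fi P i

open Classical in
/-- the generators of the big group -/
noncomputable def gen (x : Sg P) : Ab P := Pi.mulSingle x.1 x.2

lemma gen_conv : ConvergesToOne (gen P) := by
  classical
  intro U hU h1
  have h1' : (1 : Abig P) ∈ (U : Set (Abig P)) := h1
  obtain ⟨I, u, hu, hIU⟩ := isOpen_pi_iff.1 hU 1 h1'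
  have hfin : (⋃ i ∈ I, Set.range (fun a : Fi P i => (⟨i, a⟩ : Sg P))).Finite :=
    Set.Finite.biUnion I.finite_toSet fun i _ => Set.finite_range _
  refine hfin.subset ?_
  rintro ⟨i, a⟩ hx
  by_contra hcon
  have hi : i ∉ I := by
    intro hi
    apply hcon
    simp only [Set.mem_iUnion]
    exact ⟨i, hi, a, rfl⟩
  apply hx
  apply hIU
  intro j hj
  have hji : j ≠ i := fun h => hi (h ▸ hj)
  have : (gen P ⟨i, a⟩ : Abig P) j = 1 := Pi.mulSingle_eq_of_ne hji a
  rw [this]
  exact (hu j hj).2

lemma gen_dense (D : Subgroup (Abig P)) (hD : IsClosed (D : Set (Abig P)))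
    (hg : ∀ x, gen P x ∈ D) : D = ⊤ := by
  classical
  rw [eq_top_iff]
  intro a _
  have key : ∀ I : Finset (Ix P), ∃ b ∈ D, (∀ i ∈ I, b i = a i) ∧ ∀ i, i ∉ I → b i = 1 := by
    intro I
    induction I using Finset.induction_on with
    | empty => exact ⟨1, D.one_mem, by simp, fun i _ => rfl⟩
    | insert i I hi ih =>
      obtain ⟨b, hb, h1, h2⟩ := ih
      refine ⟨b * gen P ⟨i, a i⟩, D.mul_mem hb (hg _), ?_, ?_⟩
      · intro j hj
        rcases Finset.mem_insert.1 hj with rfl | hj
        · have h3 : (gen P ⟨j, a j⟩ : Abig P) j = a j := Pi.mulSingle_eq_same j (a j)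
          change b j * (gen P ⟨j, a j⟩ : Abig P) j = a j
          rw [h3, h2 j hi, one_mul]
        · have hji : j ≠ i := fun h => hi (h ▸ hj)
          have h3 : (gen P ⟨i, a i⟩ : Abig P) j = 1 := Pi.mulSingle_eq_of_ne hji _
          change b j * (gen P ⟨i, a i⟩ : Abig P) j = a j
          rw [h3, h1 j hj, mul_one]
      · intro j hj
        have hji : j ≠ i := fun h => hj (h ▸ Finset.mem_insert_self _ _)
        have hjI : j ∉ I := fun h => hj (Finset.mem_insert_of_mem h)
        have h3 : (gen P ⟨i, a i⟩ : Abig P) j = 1 := Pi.mulSingle_eq_of_ne hji _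
        change b j * (gen P ⟨i, a i⟩ : Abig P) j = 1
        rw [h3, h2 j hjI, mul_one]
  have : a ∈ closure (D : Set (Abig P)) := by
    rw [mem_closure_iff]
    intro U hU haU
    obtain ⟨I, u, hu, hIU⟩ := isOpen_pi_iff.1 hU a haU
    obtain ⟨b, hb, h1, _⟩ := key I
    refine ⟨b, ?_, hb⟩
    apply hIU
    intro j hj
    rw [h1 j hj]
    exact (hu j hj).2
  rw [hD.closure_eq] at this
  exact this

end Emb

end Pool.Agent.Hhelper13.Piles
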