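import Pool.Agent.Hhelper13.Pile.Defs

/-!
# The lifting property of projective piles for finite groups acting on finite sets
-/

universe u

namespace Pool.Agent.Hhelper13.Piles

section FinPile

variable (B Y : Type u) [Group B] [Finite B] [Finite Y] [MulAction B Y]

/-- a finite group acting on a finite set, as a pile -/
def finPile : Pile.{u} :=
  letI : TopologicalSpace B := ⊥
  haveI : DiscreteTopology B := ⟨rfl⟩
  letI : TopologicalSpace Y := ⊥
  haveI : DiscreteTopology Y := ⟨rfl⟩
  { G := ProfiniteGrp.of B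
    T := Profinite.of Y
    act := inferInstanceAs (MulAction B Y)
    cont := ⟨by exact continuous_of_discreteTopology⟩ }

instance : DiscreteTopology (finPile B Y).G := ⟨rfl⟩
instance : DiscreteTopology (finPile B Y).T := ⟨rfl⟩
instance : Finite (finPile B Y).G := inferInstanceAs (Finite B)
instance : Finite (finPile B Y).T := inferInstanceAs (Finite Y)

variable {B Y}

/-- change the codomain -/
def castG (B Y : Type u) [Group B] [Finite B] [Finite Y] [MulAction B Y] {X : Type*} [Monoid X]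
    (φ : X →* B) : X →* (finPile B Y).G := φ

/-- change the codomain -/
def castT (B Y : Type u) [Group B] [Finite B] [Finite Y] [MulAction B Y] {X : Type*}
    (u : X → Y) : X → (finPile B Y).T := u

lemma castG_cont {X : Type*} [Group X] [TopologicalSpace X] [IsTopologicalGroup X]
    (φ : X →* B) (hφ : IsOpen (φ.ker : Set X)) : Continuous (castG B Y φ) := by
  apply continuous_of_continuousAt_one (castG B Y φ)
  rw [ContinuousAt, map_one, nhds_discrete (finPile B Y).G, Filter.tendsto_pure]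
  exact hφ.mem_nhds (one_mem φ.ker)

lemma castT_cont {X : Type*} [TopologicalSpace X] (u : X → Y) (hu : ∀ y, IsOpen (u ⁻¹' {y})) :
    Continuous (castT B Y u) := by
  rw [continuous_discrete_rng]
  exact hu

/-- morphisms from a pile to a finite pile -/
def toFinPile (P : Pile.{u}) (φ : P.G →* B) (hφ : IsOpen (φ.ker : Set P.G)) (u : P.T → Y)
    (hu : ∀ y, IsOpen (u ⁻¹' {y})) (h : ∀ (g : P.G) (t : P.T), u (g • t) = φ g • u t) :
    P.Hom (finPile B Y) :=
  Pile.Hom.mk (ContinuousMonoidHom.mk (castG B Y φ) (castG_cont φ hφ))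
    (ContinuousMap.mk (castT B Y u) (castT_cont u hu)) h

end FinPile

section Orb

variable {B : Type u} (Y : Type u) [Group B] [MulAction B Y] (K : Subgroup B)

/-- the orbit space of `K` -/
abbrev Orb : Type u := MulAction.orbitRel.Quotient K Y

variable {Y}

/-- class of a point -/
def orbMk (y : Y) : Orb Y K := Quotient.mk'' y

lemma orbMk_eq {y y' : Y} : orbMk K y = orbMk K y' ↔ ∃ k ∈ K, k • y' = y := by
  constructor
  · intro h
    obtain ⟨k, hk⟩ := Quotient.exact h
    exact ⟨k.1, k.2, hk⟩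
  · rintro ⟨k, hk, h⟩
    exact Quotient.sound ⟨⟨k, hk⟩, h⟩

lemma orbMk_surjective : Function.Surjective (orbMk K : Y → Orb Y K) := Quotient.mk''_surjective

variable [K.Normal]

/-- `B` acts on the orbit space of its normal subgroup `K` -/
@[instance_reducible]
def actB : MulAction B (Orb Y K) where
  smul b := Quotient.map (b • ·) (by
    rintro y y' ⟨k, hk⟩
    refine ⟨⟨b * k * b⁻¹, Subgroup.Normal.conj_mem inferInstance k.1 k.2 b⟩, ?_⟩
    have hk' : (k : B) • y' = y := hk
    change (b * k * b⁻¹) • (b • y') = b • y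
    rw [← hk', smul_smul, smul_smul]
    congr 1
    group)
  one_smul := by
    rintro ⟨y⟩
    change Quotient.mk _ ((1 : B) • y) = Quotient.mk _ y
    rw [one_smul]
  mul_smul := by
    rintro b c ⟨y⟩
    change Quotient.mk _ ((b * c) • y) = Quotient.mk _ (b • c • y)
    rw [mul_smul]

/-- the action of the quotient on the orbit space -/
instance actQ : MulAction (B ⧸ K) (Orb Y K) :=
  letI := actB (Y := Y) K
  MulAction.compHom (Orb Y K) (QuotientGroup.lift K (MulAction.toPermHom B (Orb Y K)) (by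
    intro k hk
    rw [MonoidHom.mem_ker]
    ext x
    obtain ⟨y, rfl⟩ := orbMk_surjective K x
    change orbMk K (k • y) = orbMk K y
    rw [orbMk_eq]
    exact ⟨k, hk, rfl⟩) : B ⧸ K →* Equiv.Perm (Orb Y K))

lemma mk_smul_orbMk (b : B) (y : Y) : (b : B ⧸ K) • orbMk K y = orbMk K (b • y) := rfl

end Orb

section Main

variable {B Y : Type u} [Group B] [Finite B] [Finite Y] [MulAction B Y] (K : Subgroup B) [K.Normal]

/-- the quotient homomorphism on groups -/
def quotG : (finPile B Y).G →* (finPile (B ⧸ K) (Orb Y K)).G :=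
  (QuotientGroup.mk' K : B →* B ⧸ K)

/-- the quotient map on spaces -/
def quotT : (finPile B Y).T → (finPile (B ⧸ K) (Orb Y K)).T :=
  (orbMk K : Y → Orb Y K)

/-- the quotient morphism -/
def quotHom : (finPile B Y).Hom (finPile (B ⧸ K) (Orb Y K)) :=
  Pile.Hom.mk (ContinuousMonoidHom.mk (quotG K) continuous_of_discreteTopology)
    (ContinuousMap.mk (quotT K) continuous_of_discreteTopology) (fun _ _ => rfl)

omit [Finite B] [Finite Y] in
lemma quotHom_stab (hfree : ∀ k ∈ K, ∀ y : Y, k • y = y → k = 1) (y : Y) :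
    Set.BijOn (fun b : B => (b : B ⧸ K)) {b : B | b • y = y}
      {a : B ⧸ K | a • orbMk K y = orbMk K y} := by
  refine ⟨?_, ?_, ?_⟩
  · intro b hb
    change (b : B ⧸ K) • orbMk K y = orbMk K y
    rw [mk_smul_orbMk]
    exact congrArg _ hb
  · intro b hb b' hb' h
    have h1 : b⁻¹ * b' ∈ K := QuotientGroup.eq.1 h
    have h2 : (b⁻¹ * b') • y = y := by
      rw [mul_smul]
      have hb1 : b • y = y := hb
      have hb2 : b' • y = y := hb'
      rw [hb2]
      exact inv_smul_eq_iff.2 hb1.symm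
    have h3 := hfree _ h1 y h2
    exact inv_mul_eq_one.1 h3
  · intro a ha
    obtain ⟨b, rfl⟩ := QuotientGroup.mk_surjective a
    have ha' : orbMk K (b • y) = orbMk K y := ha
    obtain ⟨k, hk, h⟩ := (orbMk_eq K).1 ha'
    -- k • y = b • y
    refine ⟨k⁻¹ * b, ?_, ?_⟩
    · change (k⁻¹ * b) • y = y
      rw [mul_smul, ← h, inv_smul_smul]
    · apply QuotientGroup.eq.2
      have : (k⁻¹ * b)⁻¹ * b = b⁻¹ * k * b := by group
      rw [this]
      have := Subgroup.Normal.conj_mem (inferInstance : K.Normal) k hk b⁻¹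
      simpa using this

lemma quotHom_isRigid (hfree : ∀ k ∈ K, ∀ y : Y, k • y = y → k = 1) :
    (quotHom K : (finPile B Y).Hom (finPile (B ⧸ K) (Orb Y K))).IsRigid where
  bijStab y := quotHom_stab K hfree y
  homeo := by
    have hcont : Continuous (quotHom K : (finPile B Y).Hom
        (finPile (B ⧸ K) (Orb Y K))).orbitMap := by
      refine Continuous.quotient_map' ?_ _
      exact (quotHom K : (finPile B Y).Hom (finPile (B ⧸ K) (Orb Y K))).onT.continuous_toFun
    rw [isHomeomorph_iff_continuous_bijective]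
    refine ⟨hcont, ?_, ?_⟩
    · rintro ⟨y⟩ ⟨y'⟩ h
      obtain ⟨a, ha⟩ := Quotient.exact h
      obtain ⟨b, rfl⟩ := QuotientGroup.mk_surjective a
      let y₁ : Y := y
      let y₂ : Y := y'
      have ha' : orbMk K (b • y₂) = orbMk K y₁ := ha
      obtain ⟨k, hk, h2⟩ := (orbMk_eq K).1 ha'
      have h3 : (k⁻¹ * b) • y₂ = y₁ := by
        rw [mul_smul, ← h2, inv_smul_smul]
      exact Quotient.sound ⟨k⁻¹ * b, h3⟩
    · rintro ⟨x⟩
      obtain ⟨y, rfl⟩ := orbMk_surjective K x
      exact ⟨Quotient.mk _ y, rfl⟩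

lemma quotHom_isEpi (hfree : ∀ k ∈ K, ∀ y : Y, k • y = y → k = 1) :
    (quotHom K : (finPile B Y).Hom (finPile (B ⧸ K) (Orb Y K))).IsEpi where
  surjG := QuotientGroup.mk_surjective
  surjT := orbMk_surjective (Y := Y) K
  surjStab x := by
    obtain ⟨y, rfl⟩ := orbMk_surjective (Y := Y) K x
    exact ⟨y, rfl, (quotHom_stab K hfree y).image_eq⟩

theorem exists_lift (P : Pile.{u}) (hP : P.IsProjective)
    (hfree : ∀ k ∈ K, ∀ y : Y, k • y = y → k = 1)
    (φ : P.G →* B ⧸ K) (hφ : IsOpen (φ.ker : Set P.G)) (u : P.T → Orb Y K)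
    (hu : ∀ y, IsOpen (u ⁻¹' {y})) (h : ∀ (g : P.G) (t : P.T), u (g • t) = φ g • u t) :
    ∃ (γ : P.G →* B) (v : P.T → Y), IsOpen (γ.ker : Set P.G) ∧ (∀ y, IsOpen (v ⁻¹' {y})) ∧
      (∀ (g : P.G) (t : P.T), v (g • t) = γ g • v t) ∧ (∀ g, (γ g : B ⧸ K) = φ g) ∧
      (∀ t, orbMk K (v t) = u t) := by
  obtain ⟨γ, h1, h2⟩ := hP (finPile (B ⧸ K) (Orb Y K)) (finPile B Y) (toFinPile P φ hφ u hu h)
    (quotHom K) inferInstance inferInstance (quotHom_isEpi K hfree) (quotHom_isRigid K hfree)
  refine ⟨(γ.onG : P.G →* (finPile B Y).G), γ.onT, ?_, ?_, γ.map_smul, h1, h2⟩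
  · have : IsOpen (γ.onG ⁻¹' ({1} : Set (finPile B Y).G)) :=
      (isOpen_discrete _).preimage γ.onG.continuous_toFun
    exact this
  · intro y
    exact (isOpen_discrete ({y} : Set (finPile B Y).T)).preimage γ.onT.continuous_toFun

end Main

end Pool.Agent.Hhelper13.Piles
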