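import Pool.Agent.Hhelper13.Pile.Embed

/-!
# The main theorem
-/

universe u

open Topology

namespace Pool.Agent.Hhelper13.Piles

theorem main (P : Pile.{u}) (hP : P.IsProjective) :
    ∃ (C F H : ProfiniteGrp.{u}) (S : Type u) (s : S → F) (i : C →ₜ* H) (j : F →ₜ* H)
      (e : P.G →ₜ* H),
      IsFreeProfinite s ∧ IsFreeProfiniteProduct i j ∧ Function.Injective e ∧
      ∀ t : P.T, ∃ h : H, ∀ g : P.G, g • t = t ↔ ∃ c : C, e g = h⁻¹ * i c * h := by
  classical
  let H : ProfiniteGrp.{u} := FreeProd (Cb P) (Sg P)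
  let i : Cb P →ₜ* H := inC (Cb P) (Sg P)
  let j : FreeProf (Sg P) →ₜ* H := inF (Cb P) (Sg P)
  -- the map onto the big group
  obtain ⟨gF, hgF, -⟩ := (isFreeProfinite_genF (Sg P)).univ (Ab P) (gen P) (gen_conv P)
  let inc : Cb P →ₜ* Ab P := ⟨(CSub P).subtype, continuous_subtype_val⟩
  obtain ⟨α, ⟨hα1, hα2⟩, -⟩ := isFreeProfiniteProduct (Cb P) (Sg P) (Ab P) inc gF
  have hα1' : ∀ c : CSub P, α (i c) = (c : Abig P) := hα1
  have hαs : Function.Surjective α := by
    let D : Subgroup (Abig P) := (α : H →* Ab P).range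
    have hD : IsClosed (D : Set (Abig P)) := (isCompact_range α.continuous_toFun).isClosed
    have hDt := gen_dense P D hD (fun x => ⟨j (genF (Sg P) x), by
      change α (j (genF (Sg P) x)) = gen P x
      rw [hα2, hgF]⟩)
    intro a
    have : a ∈ D := by rw [hDt]; trivial
    exact this
  -- the closed subgroup `i(C)` of `H`
  let D : Subgroup H := (i : Cb P →* H).range
  have hD : IsClosed (D : Set H) := (isCompact_range i.continuous_toFun).isClosed
  haveI : TotallySeparatedSpace (H ⧸ D) := quot_totSep D hD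
  haveI : CompactSpace (H ⧸ D) := Quotient.compactSpace
  -- the map from `H ⧸ D` to the codes
  have hwd : ∀ (k : Ix P) (a b : H), a⁻¹ * b ∈ D →
      ((α a : Abig P) k).2 (z0 P k) = ((α b : Abig P) k).2 (z0 P k) := by
    rintro k a b ⟨c, hc⟩
    have hb : b = a * i c := by
      have : i c = a⁻¹ * b := hc
      rw [this, mul_inv_cancel_left]
    rw [hb, map_mul]
    have h1 : (α (i c) : Abig P) = (c : Abig P) := hα1' c
    have h2 : ((α a * α (i c) : Abig P) k).2 (z0 P k) =
        ((α a : Abig P) k).2 (((α (i c) : Abig P) k).2 (z0 P k)) := rfl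
    refine Eq.trans ?_ h2.symm
    rw [h1]
    exact congrArg _ (c.2 k).symm
  let aY : (k : Ix P) → H ⧸ D → Xi P k := fun k =>
    Quotient.lift (fun a : H => ((α a : Abig P) k).2 (z0 P k)) (fun a b hab =>
      hwd k a b (QuotientGroup.leftRel_apply.1 hab))
  have haY : ∀ (k : Ix P) (a : H), aY k (a : H ⧸ D) = ((α a : Abig P) k).2 (z0 P k) :=
    fun _ _ => rfl
  have haYc : ∀ k, Continuous (aY k) := by
    intro k
    refine Continuous.quotient_lift ?_ _
    exact (ev_continuous P k (z0 P k)).comp α.continuous_toFun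
  -- the ambient pile
  let E : Type u := P.G × H
  let W : Type u := P.T × (H ⧸ D)
  letI actEW : MulAction E W :=
    { smul := fun x w => (x.1 • w.1, x.2 • w.2)
      one_smul := fun w => Prod.ext (one_smul _ _) (one_smul _ _)
      mul_smul := fun x y w => Prod.ext (mul_smul _ _ _) (mul_smul _ _ _) }
  have hsm : ∀ (x : E) (w : W), x • w = (x.1 • w.1, x.2 • w.2) := fun _ _ => rfl
  haveI : ContinuousSMul E W := ⟨by
    refine Continuous.prodMk ?_ ?_
    · exact (continuous_fst.comp continuous_fst).smul (continuous_fst.comp continuous_snd)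
    · exact (continuous_snd.comp continuous_fst).smul (continuous_snd.comp continuous_snd)⟩
  let π : E →* P.G := MonoidHom.fst _ _
  let ρ : W → P.T := Prod.fst
  have hπ : Continuous π := continuous_fst
  have hρ : Continuous ρ := continuous_fst
  let ph : P.G →* Abig P := phi P
  let al : H →* Abig P := (α : H →* Ab P)
  let R₀ : Subgroup E := MonoidHom.eqLocus (ph.comp (MonoidHom.fst _ _))
    (al.comp (MonoidHom.snd _ _))
  have hR₀ : ∀ x : E, x ∈ R₀ ↔ phi P x.1 = (α x.2 : Abig P) := fun _ => Iff.rfl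
  let S₀ : Set W := {w | ∀ k, aY k w.2 = code P k w.1}
  have hαc : Continuous (fun h : H => (α h : Abig P)) := α.continuous_toFun
  have hgood : Good π ρ R₀ S₀ := by
    constructor
    · exact isClosed_eq ((phi_continuous P).comp continuous_fst) (hαc.comp continuous_snd)
    · have : S₀ = ⋂ k, {w : W | aY k w.2 = code P k w.1} := by
        ext w
        simp only [Set.mem_iInter]
        exact Iff.rfl
      rw [this]
      exact isClosed_iInter fun k => isClosed_eq ((haYc k).comp continuous_snd)
        ((code_continuous P k).comp continuous_fst)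
    · intro g
      obtain ⟨h, hh⟩ := hαs (phi P g)
      exact ⟨(g, h), hh.symm, rfl⟩
    · intro t
      -- an element of the big group moving the base point to the code of `t`
      let a : Abig P := fun k => ((1 : P.G ⧸ nn P k), Equiv.swap (z0 P k) (code P k t))
      obtain ⟨h, hh⟩ := hαs a
      refine ⟨(t, (h : H ⧸ D)), ?_, rfl⟩
      intro k
      change aY k (h : H ⧸ D) = code P k t
      rw [haY, hh]
      exact Equiv.swap_apply_left _ _
    · rintro ⟨g, h⟩ hr ⟨t, y⟩ hs k
      obtain ⟨a, rfl⟩ := QuotientGroup.mk_surjective y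
      have h1 : aY k (a : H ⧸ D) = code P k t := hs k
      have h2 : phi P g = (α h : Abig P) := hr
      change aY k ((h * a : H) : H ⧸ D) = code P k (g • t)
      rw [haY] at h1 ⊢
      rw [code_smul, h2, map_mul, ← h1]
      rfl
    · rintro ⟨t, y⟩ hs ⟨t', y'⟩ hs' htt
      obtain ⟨a, rfl⟩ := QuotientGroup.mk_surjective y
      obtain ⟨b, rfl⟩ := QuotientGroup.mk_surjective y'
      have htt' : t = t' := htt
      subst htt'
      -- `α (a⁻¹ b)` fixes the base point
      have hc : (α (a⁻¹ * b) : Abig P) ∈ CSub P := by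
        intro k
        have h1 : aY k (a : H ⧸ D) = code P k t := hs k
        have h2 : aY k (b : H ⧸ D) = code P k t := hs' k
        rw [haY] at h1 h2
        rw [map_mul, map_inv]
        change ((α a : Abig P) k).2⁻¹ (((α b : Abig P) k).2 (z0 P k)) = z0 P k
        rw [h2, Equiv.Perm.inv_eq_iff_eq]
        exact h1.symm
      let c : CSub P := ⟨α (a⁻¹ * b), hc⟩
      let k : H := b * (i c)⁻¹ * a⁻¹
      have hk1 : (α k : Abig P) = 1 := by
        change α (b * (i c)⁻¹ * a⁻¹) = 1
        rw [map_mul, map_mul, map_inv, map_inv, hα1' c]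
        change (α b) * (α (a⁻¹ * b))⁻¹ * (α a)⁻¹ = 1
        rw [map_mul, map_inv]
        group
      refine ⟨(1, k), ?_, rfl, ?_⟩
      · rw [hR₀, hk1, map_one]
      · rw [hsm]
        refine Prod.ext (one_smul _ _).symm ?_
        change (b : H ⧸ D) = ((k * a : H) : H ⧸ D)
        rw [QuotientGroup.eq]
        refine ⟨c⁻¹, ?_⟩
        change i c⁻¹ = b⁻¹ * (b * (i c)⁻¹ * a⁻¹ * a)
        rw [map_inv]
        group
    · rintro ⟨g, h⟩ hr ⟨t, y⟩ hs hg hfix
      obtain ⟨a, rfl⟩ := QuotientGroup.mk_surjective y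
      have hg1 : g = 1 := hg
      subst hg1
      have h2 : phi P 1 = (α h : Abig P) := hr
      rw [map_one] at h2
      have h3 : ((h * a : H) : H ⧸ D) = (a : H ⧸ D) := congrArg Prod.snd hfix
      obtain ⟨c, hc⟩ := QuotientGroup.eq.1 h3.symm
      have hc' : i c = a⁻¹ * (h * a) := hc
      have h4 : (c : Abig P) = 1 := by
        rw [← hα1' c, hc', map_mul, map_mul, map_inv]
        rw [← h2]
        group
      have h5 : c = 1 := Subtype.ext h4
      rw [h5, map_one] at hc'
      have h6 : h = 1 := by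
        have : a * 1 = h * a := by rw [hc', mul_inv_cancel_left]
        rw [mul_one] at this
        exact (mul_eq_right.1 this.symm)
      rw [h6]
      rfl
  obtain ⟨R, S, hRR, hSS, hg, hmin⟩ := exists_min π ρ hP hπ hρ (fun _ _ => rfl) R₀ S₀ hgood
  obtain ⟨γ, hγ⟩ := graph_hom R hg.clR hg.ontoG hmin
  have hγα : ∀ g, phi P g = (α (γ g) : Abig P) := fun g => hRR (hγ g)
  refine ⟨Cb P, FreeProf (Sg P), H, Sg P, genF (Sg P), i, j, γ, isFreeProfinite_genF _,
    isFreeProfiniteProduct _ _, ?_, ?_⟩
  · intro g g' h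
    apply phi_injective P
    rw [hγα, hγα, h]
  · intro t
    obtain ⟨⟨t', y⟩, hs, ht⟩ := hg.ontoT t
    have ht' : t' = t := ht
    subst ht'
    obtain ⟨a, rfl⟩ := QuotientGroup.mk_surjective y
    refine ⟨a⁻¹, fun g => ?_⟩
    constructor
    · intro hgt
      have h1 := hg.inv _ (hγ g) _ hs
      rw [hsm] at h1
      have h1' : ((t', γ g • (a : H ⧸ D)) : W) ∈ S := by
        have : ((g • t', γ g • (a : H ⧸ D)) : W) = (t', γ g • (a : H ⧸ D)) := by rw [hgt]
        rw [← this]
        exact h1
      obtain ⟨r, hr, hr1, hr2⟩ := hg.fib _ hs _ h1' rfl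
      have hr3 := hmin r hr hr1
      rw [hr3, one_smul] at hr2
      have h3 : ((γ g * a : H) : H ⧸ D) = (a : H ⧸ D) := congrArg Prod.snd hr2
      obtain ⟨c, hc⟩ := QuotientGroup.eq.1 h3.symm
      have hc' : i c = a⁻¹ * (γ g * a) := hc
      refine ⟨c, ?_⟩
      rw [hc']
      group
    · rintro ⟨c, hc⟩
      have h1 := hg.inv _ (hγ g) _ hs
      rw [hsm] at h1
      have h2 : γ g • (a : H ⧸ D) = (a : H ⧸ D) := by
        change ((γ g * a : H) : H ⧸ D) = (a : H ⧸ D)
        symm
        rw [QuotientGroup.eq]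
        refine ⟨c, ?_⟩
        change i c = a⁻¹ * (γ g * a)
        rw [hc]
        group
      apply code_injective P
      intro k
      have h3 : aY k (γ g • (a : H ⧸ D)) = code P k (g • t') := (hSS h1) k
      have h4 : aY k (a : H ⧸ D) = code P k t' := (hSS hs) k
      rw [h2, h4] at h3
      exact h3.symm

end Pool.Agent.Hhelper13.Piles
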