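import Pool.Agent.Hhelper13.Pile.Lift

/-!
# Shrinking a rigid cover of a projective pile
-/

universe u

open Topology

namespace Pool.Agent.Hhelper13.Piles

section Aux

variable {R S : Type u} [Group R] [TopologicalSpace R] [IsTopologicalGroup R] [CompactSpace R]
  [TopologicalSpace S] [CompactSpace S] [T2Space S] [MulAction R S] [ContinuousSMul R S]

lemma sat_clopen (L₀ : Subgroup R) (hL₀ : IsClosed (L₀ : Set R)) (W : Set S) (hW : IsClopen W) :
    IsClopen {s : S | ∃ l ∈ L₀, l • s ∈ W} := by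
  constructor
  · have : {s : S | ∃ l ∈ L₀, l • s ∈ W} =
        (fun x : R × S => x.1⁻¹ • x.2) '' ((L₀ : Set R) ×ˢ W) := by
      ext s
      constructor
      · rintro ⟨l, hl, h⟩
        exact ⟨(l, l • s), ⟨hl, h⟩, inv_smul_smul l s⟩
      · rintro ⟨⟨l, w⟩, ⟨hl, hw⟩, rfl⟩
        exact ⟨l, hl, by simpa using hw⟩
    rw [this]
    apply IsCompact.isClosed
    apply IsCompact.image
    · exact hL₀.isCompact.prod hW.1.isCompact
    · exact (continuous_fst.inv).smul continuous_snd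
  · have : {s : S | ∃ l ∈ L₀, l • s ∈ W} = ⋃ l ∈ L₀, (fun s : S => l • s) ⁻¹' W := by
      ext s
      simp
    rw [this]
    exact isOpen_biUnion fun l _ => hW.2.preimage (continuous_const_smul l)

lemma open_stab (V : Set S) (hV : IsClopen V) : IsOpen {r : R | ∀ s ∈ V, r • s ∈ V} := by
  rw [← isClosed_compl_iff]
  have : {r : R | ∀ s ∈ V, r • s ∈ V}ᶜ = Prod.fst '' {x : R × S | x.2 ∈ V ∧ x.1 • x.2 ∉ V} := by
    ext r
    constructor
    · intro h
      simp only [Set.mem_compl_iff, Set.mem_ofPred_eq, not_forall] at h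
      obtain ⟨s, hs, h⟩ := h
      exact ⟨(r, s), ⟨hs, h⟩, rfl⟩
    · rintro ⟨⟨r', s⟩, ⟨hs, h⟩, rfl⟩ hcon
      exact h (hcon s hs)
  rw [this]
  apply isClosedMap_fst_of_compactSpace
  have h1 : IsClosed {x : R × S | x.2 ∈ V} := hV.1.preimage continuous_snd
  have h2 : IsClosed {x : R × S | x.1 • x.2 ∉ V} :=
    (hV.2.preimage (continuous_fst.smul continuous_snd)).isClosed_compl
  exact h1.inter h2

end Aux

theorem step {R S : Type u} [Group R] [TopologicalSpace R] [IsTopologicalGroup R] [CompactSpace R]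
    [TotallyDisconnectedSpace R]
    [TopologicalSpace S] [CompactSpace S] [T2Space S] [TotallyDisconnectedSpace S]
    [MulAction R S] [ContinuousSMul R S]
    (P : Pile.{u}) (hP : P.IsProjective) (π : R →* P.G) (hπ : Continuous π)
    (hπs : Function.Surjective π) (ρ : S → P.T) (hρ : Continuous ρ)
    (hρs : Function.Surjective ρ) (heq : ∀ (r : R) (s : S), ρ (r • s) = π r • ρ s)
    (hfree : ∀ (r : R) (s : S), π r = 1 → r • s = s → r = 1)
    (hfib : ∀ s s', ρ s = ρ s' → ∃ r, π r = 1 ∧ s' = r • s)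
    (r₀ : R) (hr₀ : π r₀ = 1) (hr₀1 : r₀ ≠ 1) :
    ∃ (R₁ : Subgroup R) (S₁ : Set S), IsClosed (R₁ : Set R) ∧ IsClosed S₁ ∧ r₀ ∉ R₁ ∧
      (∀ g, ∃ r ∈ R₁, π r = g) ∧ (∀ t, ∃ s ∈ S₁, ρ s = t) ∧ (∀ r ∈ R₁, ∀ s ∈ S₁, r • s ∈ S₁) ∧
      (∀ s ∈ S₁, ∀ s' ∈ S₁, ρ s = ρ s' → ∃ r ∈ R₁, π r = 1 ∧ s' = r • s) := by
  classical
  -- an open normal subgroup avoiding `r₀`
  obtain ⟨M₀, hM₀⟩ := ProfiniteGrp.exist_openNormalSubgroup_sub_open_nhds_of_one
    (G := R) (U := {r₀}ᶜ) isOpen_compl_singleton (by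
      intro h
      exact hr₀1 (by simpa using h.symm))
  have hr₀M : r₀ ∉ M₀.toSubgroup := fun h => hM₀ h rfl
  have hM₀cl : IsClosed (M₀.toSubgroup : Set R) := Subgroup.isClosed_of_isOpen _ M₀.isOpen'
  let L₀ : Subgroup R := π.ker ⊓ M₀.toSubgroup
  have hkercl : IsClosed (π.ker : Set R) := isClosed_singleton.preimage hπ
  have hL₀cl : IsClosed (L₀ : Set R) := hkercl.inter hM₀cl
  -- separation
  have hsep : ∀ (l : R) (s : S), π l = 1 → l ∉ M₀.toSubgroup →
      ∃ V : Set S, IsClopen V ∧ (∀ l₀ ∈ L₀, ∀ x, l₀ • x ∈ V ↔ x ∈ V) ∧ s ∈ V ∧ l • s ∉ V := by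
    intro l s hl hlM
    -- the orbit of `l • s`
    let O : Set S := (fun x : R => x • (l • s)) '' (L₀ : Set R)
    have hO : IsClosed O :=
      (hL₀cl.isCompact.image (continuous_id.smul continuous_const)).isClosed
    have hsO : s ∉ O := by
      rintro ⟨l₀, hl₀, h⟩
      have h' : (l₀ * l) • s = s := by rw [mul_smul]; exact h
      have h1 : l₀ * l = 1 := hfree _ s (by rw [map_mul, hl, hl₀.1, mul_one]) h'
      apply hlM
      have h2 : l = l₀⁻¹ := (inv_eq_of_mul_eq_one_right h1).symm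
      rw [h2]
      exact M₀.toSubgroup.inv_mem hl₀.2
    obtain ⟨W, ⟨hsW, hW⟩, hWO⟩ := (nhds_basis_clopen s).mem_iff.1 (hO.isOpen_compl.mem_nhds hsO)
    refine ⟨{x : S | ∃ l₀ ∈ L₀, l₀ • x ∈ W}, sat_clopen L₀ hL₀cl W hW, ?_, ?_, ?_⟩
    · intro l₀ hl₀ x
      constructor
      · rintro ⟨l₁, hl₁, h⟩
        exact ⟨l₁ * l₀, L₀.mul_mem hl₁ hl₀, by rw [mul_smul]; exact h⟩
      · rintro ⟨l₁, hl₁, h⟩
        refine ⟨l₁ * l₀⁻¹, L₀.mul_mem hl₁ (L₀.inv_mem hl₀), ?_⟩
        rw [mul_smul, inv_smul_smul]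
        exact h
    · exact ⟨1, L₀.one_mem, by rw [one_smul]; exact hsW⟩
    · rintro ⟨l₁, hl₁, h⟩
      exact hWO h ⟨l₁, hl₁, rfl⟩
  -- compactness
  let ι : Type u := {V : Set S // IsClopen V ∧ (∀ l₀ ∈ L₀, ∀ x, l₀ • x ∈ V ↔ x ∈ V)}
  have hK₀ : IsCompact {x : R × S | π x.1 = 1 ∧ x.1 ∉ M₀.toSubgroup} := by
    apply IsClosed.isCompact
    have h1 : IsClosed {x : R × S | π x.1 = 1} := hkercl.preimage continuous_fst
    have h2 : IsClosed {x : R × S | x.1 ∉ M₀.toSubgroup} :=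
      (M₀.isOpen'.preimage continuous_fst).isClosed_compl
    exact h1.inter h2
  obtain ⟨t, ht⟩ := hK₀.elim_finite_subcover
    (fun V : ι => {x : R × S | x.2 ∈ V.1 ∧ x.1 • x.2 ∉ V.1})
    (by
      intro V
      have h1 : IsOpen {x : R × S | x.2 ∈ V.1} := V.2.1.2.preimage continuous_snd
      have h2 : IsOpen {x : R × S | x.1 • x.2 ∉ V.1} :=
        (V.2.1.1.preimage (continuous_fst.smul continuous_snd)).isOpen_compl
      exact h1.inter h2)
    (by
      rintro ⟨l, s⟩ ⟨hl, hlM⟩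
      obtain ⟨V, h1, h2, h3, h4⟩ := hsep l s hl hlM
      exact Set.mem_iUnion.2 ⟨⟨V, h1, h2⟩, h3, h4⟩)
  have ht' : ∀ (l : R) (s : S), π l = 1 → l ∉ M₀.toSubgroup → ∃ V ∈ t, s ∈ V.1 ∧ l • s ∉ V.1 := by
    intro l s h1 h2
    have := ht (show ((l, s) : R × S) ∈ {x : R × S | π x.1 = 1 ∧ x.1 ∉ M₀.toSubgroup} from ⟨h1, h2⟩)
    simp only [Set.mem_iUnion] at this
    obtain ⟨V, hV, h⟩ := this
    exact ⟨V, hV, h⟩
  -- the subgroup `M₁`
  obtain ⟨M₁, hM₁⟩ := ProfiniteGrp.exist_openNormalSubgroup_sub_open_nhds_of_one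
    (G := R) (U := ⋂ V ∈ t, {r : R | ∀ s ∈ V.1, r • s ∈ V.1})
    (isOpen_biInter_finset fun V _ => open_stab V.1 V.2.1) (by
      simp only [Set.mem_iInter]
      intro V _ s hs
      rw [one_smul]
      exact hs)
  have hM₁' : ∀ m ∈ M₁.toSubgroup, ∀ V ∈ t, ∀ s, m • s ∈ V.1 ↔ s ∈ V.1 := by
    intro m hm V hV s
    have h1 : ∀ m ∈ M₁.toSubgroup, ∀ s ∈ V.1, m • s ∈ V.1 := by
      intro m hm
      have := hM₁ hm
      simp only [Set.mem_iInter] at this
      exact this V hV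
    constructor
    · intro h
      have := h1 m⁻¹ (M₁.toSubgroup.inv_mem hm) _ h
      rwa [inv_smul_smul] at this
    · exact h1 m hm s
  let M₂ : Subgroup R := M₀.toSubgroup ⊓ M₁.toSubgroup
  haveI : L₀.Normal := Subgroup.normal_inf_normal _ _
  haveI : M₂.Normal := Subgroup.normal_inf_normal _ _
  let M : Subgroup R := L₀ ⊔ M₂
  haveI : M.Normal := Subgroup.sup_normal _ _
  have hM₂o : IsOpen (M₂ : Set R) := M₀.isOpen'.inter M₁.isOpen'
  have hMo : IsOpen (M : Set R) := Subgroup.isOpen_mono le_sup_right hM₂o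
  have hMM₀ : ∀ x, x ∈ M → x ∈ M₀.toSubgroup := by
    intro x hx
    have : M ≤ M₀.toSubgroup := sup_le inf_le_right inf_le_left
    exact this hx
  haveI : Finite (R ⧸ M) := Subgroup.quotient_finite_of_isOpen _ hMo
  -- invariance of the sets `V ∈ t` under `M`
  have hMinv : ∀ m ∈ M, ∀ V ∈ t, ∀ s, m • s ∈ V.1 ↔ s ∈ V.1 := by
    intro m hm V hV s
    obtain ⟨a, ha, b, hb, rfl⟩ := Subgroup.mem_sup_of_normal_left.1 hm
    rw [mul_smul, V.2.2 a ha, hM₁' b hb.2 V hV]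
  -- the code
  let c : S → (R ⧸ M → t → Bool) := fun s x V => decide (x.out • s ∈ V.1.1)
  have hc : ∀ (s : S) (r : R) (V : t), c s (r : R ⧸ M) V = decide (r • s ∈ V.1.1) := by
    intro s r V
    obtain ⟨m, hm⟩ := QuotientGroup.mk_out_eq_mul M r
    have h1 : ((r : R ⧸ M).out) • s ∈ V.1.1 ↔ r • s ∈ V.1.1 := by
      rw [hm]
      have : r * m.1 = (r * m.1 * r⁻¹) * r := by group
      rw [this, mul_smul]
      exact hMinv _ (Subgroup.Normal.conj_mem inferInstance m.1 m.2 r) V.1 V.2 _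
    exact decide_eq_decide.2 h1
  let Y : Type u := {f : R ⧸ M → t → Bool // ∃ s, c s = f}
  have hcs : ∀ (s : S) (b : R), (fun x : R ⧸ M => c s (x * (b : R ⧸ M))) = c (b • s) := by
    intro s b
    funext x V
    obtain ⟨r, rfl⟩ := QuotientGroup.mk_surjective x
    rw [← QuotientGroup.mk_mul, hc, hc, mul_smul]
  letI : MulAction (R ⧸ M) Y :=
    { smul := fun a f => ⟨fun x => f.1 (x * a), by
        obtain ⟨s, hs⟩ := f.2
        obtain ⟨b, rfl⟩ := QuotientGroup.mk_surjective a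
        exact ⟨b • s, by rw [← hcs, ← hs]⟩⟩
      one_smul := by
        intro f
        apply Subtype.ext
        funext x
        change f.1 (x * 1) = f.1 x
        rw [mul_one]
      mul_smul := by
        intro a b f
        apply Subtype.ext
        funext x
        change f.1 (x * (a * b)) = f.1 (x * a * b)
        rw [mul_assoc] }
  have hsmul : ∀ (a : R ⧸ M) (f : Y) (x : R ⧸ M), (a • f).1 x = f.1 (x * a) := fun _ _ _ => rfl
  let cY : S → Y := fun s => ⟨c s, s, rfl⟩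
  have hcY : ∀ (b : R) (s : S), cY (b • s) = (b : R ⧸ M) • cY s := by
    intro b s
    apply Subtype.ext
    exact (hcs s b).symm
  have hcYs : ∀ y : Y, ∃ s, cY s = y := by
    rintro ⟨f, s, hs⟩
    exact ⟨s, Subtype.ext hs⟩
  haveI : Finite Y := Subtype.finite
  -- kernel
  let K : Subgroup (R ⧸ M) := π.ker.map (QuotientGroup.mk' M)
  haveI : K.Normal := Subgroup.Normal.map inferInstance _ (QuotientGroup.mk'_surjective M)
  have hKfree : ∀ k ∈ K, ∀ y : Y, k • y = y → k = 1 := by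
    rintro _ ⟨l, hl, rfl⟩ y hy
    obtain ⟨s, rfl⟩ := hcYs y
    have hl1 : π l = 1 := hl
    have hlM₀ : l ∈ M₀.toSubgroup := by
      by_contra hcon
      obtain ⟨V, hV, h1, h2⟩ := ht' l s hl1 hcon
      have h3 : cY (l • s) = cY s := by rw [hcY]; exact hy
      have h4 : c (l • s) = c s := congrArg Subtype.val h3
      have h5 := congrFun (congrFun h4 ((1 : R) : R ⧸ M)) ⟨V, hV⟩
      rw [hc, hc, one_smul, one_smul, decide_eq_decide] at h5
      exact h2 (h5.2 h1)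
    have : l ∈ M := (le_sup_left : L₀ ≤ M) ⟨hl1, hlM₀⟩
    exact (QuotientGroup.eq_one_iff l).2 this
  -- the map on the group
  let q : R →* (R ⧸ M) ⧸ K := (QuotientGroup.mk' K).comp (QuotientGroup.mk' M)
  have hq : π.ker ≤ q.ker := by
    intro l hl
    rw [MonoidHom.mem_ker]
    exact (QuotientGroup.eq_one_iff _).2 ⟨l, hl, rfl⟩
  let φ : P.G →* (R ⧸ M) ⧸ K := π.liftOfSurjective hπs ⟨q, hq⟩
  have hφ : ∀ r, φ (π r) = q r := fun r =>
    MonoidHom.liftOfRightInverse_comp_apply π (Function.surjInv hπs)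
      (Function.rightInverse_surjInv hπs) ⟨q, hq⟩ r
  have hπq : IsQuotientMap π := hπ.isClosedMap.isQuotientMap hπ hπs
  have hρq : IsQuotientMap ρ := hρ.isClosedMap.isQuotientMap hρ hρs
  have hφo : IsOpen (φ.ker : Set P.G) := by
    rw [← hπq.isOpen_preimage]
    have h1 : M ≤ φ.ker.comap π := by
      intro m hm
      rw [Subgroup.mem_comap, MonoidHom.mem_ker, hφ]
      change ((((m : R ⧸ M)) : R ⧸ M) : (R ⧸ M) ⧸ K) = 1
      rw [(QuotientGroup.eq_one_iff m).2 hm]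
      rfl
    exact Subgroup.isOpen_mono h1 hMo
  -- the map on the space
  let u : P.T → Orb Y K := fun t => orbMk K (cY (Function.surjInv hρs t))
  have hu1 : ∀ s, u (ρ s) = orbMk K (cY s) := by
    intro s
    obtain ⟨r, hr, h⟩ := hfib s (Function.surjInv hρs (ρ s)) (Function.surjInv_eq hρs (ρ s)).symm
    change orbMk K (cY (Function.surjInv hρs (ρ s))) = _
    rw [h, hcY, orbMk_eq]
    exact ⟨(r : R ⧸ M), ⟨r, hr, rfl⟩, rfl⟩
  have hcYo : ∀ y : Y, IsOpen (cY ⁻¹' {y}) := by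
    intro y
    have : cY ⁻¹' {y} = ⋂ (x : R ⧸ M) (V : t),
        {s : S | decide (x.out • s ∈ V.1.1) = y.1 x V} := by
      ext s
      simp only [Set.mem_preimage, Set.mem_singleton_iff, Set.mem_iInter, Set.mem_ofPred_eq]
      constructor
      · intro h x V
        have := congrFun (congrFun (congrArg Subtype.val h) x) V
        exact this
      · intro h
        apply Subtype.ext
        funext x V
        exact h x V
    rw [this]
    refine isOpen_iInter_of_finite fun x => isOpen_iInter_of_finite fun V => ?_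
    have hcl : IsClopen {s : S | x.out • s ∈ V.1.1} :=
      V.1.2.1.preimage (continuous_const_smul x.out)
    rcases hb : y.1 x V with _ | _
    · have : {s : S | decide (x.out • s ∈ V.1.1) = false} = {s : S | x.out • s ∈ V.1.1}ᶜ := by
        ext s
        simp
      rw [this]
      exact hcl.1.isOpen_compl
    · have : {s : S | decide (x.out • s ∈ V.1.1) = true} = {s : S | x.out • s ∈ V.1.1} := by
        ext s
        simp
      rw [this]
      exact hcl.2
  have huo : ∀ y, IsOpen (u ⁻¹' {y}) := by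
    intro y
    rw [← hρq.isOpen_preimage]
    have : ρ ⁻¹' (u ⁻¹' {y}) = ⋃ z ∈ {z : Y | orbMk K z = y}, cY ⁻¹' {z} := by
      ext s
      simp only [Set.mem_preimage, Set.mem_singleton_iff, Set.mem_ofPred_eq, Set.mem_iUnion,
        exists_prop]
      rw [hu1]
      constructor
      · intro h
        exact ⟨cY s, h, rfl⟩
      · rintro ⟨z, hz, h⟩
        rw [h]
        exact hz
    rw [this]
    exact isOpen_biUnion fun z _ => hcYo z
  have hueq : ∀ (g : P.G) (t : P.T), u (g • t) = φ g • u t := by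
    intro g t
    obtain ⟨r, rfl⟩ := hπs g
    obtain ⟨s, rfl⟩ := hρs t
    rw [← heq, hu1, hu1, hφ, hcY]
    rfl
  obtain ⟨γ, v, hγ, hv, hγv, hγφ, hvu⟩ := exists_lift K P hP hKfree φ hφo u huo hueq
  -- the new objects
  letI : TopologicalSpace Y := ⊥
  haveI : DiscreteTopology Y := ⟨rfl⟩
  have hcYc : Continuous cY := continuous_discrete_rng.2 hcYo
  have hvc : Continuous v := continuous_discrete_rng.2 hv
  let R₁ : Subgroup R := MonoidHom.eqLocus (QuotientGroup.mk' M) (γ.comp π)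
  have hR₁ : ∀ r, r ∈ R₁ ↔ (r : R ⧸ M) = γ (π r) := fun r => Iff.rfl
  refine ⟨R₁, {s | cY s = v (ρ s)}, ?_, ?_, ?_, ?_, ?_, ?_, ?_⟩
  · apply Subgroup.isClosed_of_isOpen
    have h1 : IsOpen ((M ⊓ γ.ker.comap π : Subgroup R) : Set R) := hMo.inter (hγ.preimage hπ)
    refine Subgroup.isOpen_mono ?_ h1
    rintro r ⟨hr1, hr2⟩
    rw [hR₁, (QuotientGroup.eq_one_iff r).2 hr1]
    exact (MonoidHom.mem_ker.1 hr2).symm
  · exact isClosed_eq hcYc (hvc.comp hρ)
  · intro h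
    rw [hR₁, hr₀, map_one] at h
    exact hr₀M (hMM₀ _ ((QuotientGroup.eq_one_iff r₀).1 h))
  · intro g
    obtain ⟨r, rfl⟩ := hπs g
    have h1 : ((r : R ⧸ M) : (R ⧸ M) ⧸ K) = (γ (π r) : (R ⧸ M) ⧸ K) := by
      rw [hγφ, hφ]
      rfl
    obtain ⟨l, hl, hl2⟩ := QuotientGroup.eq.1 h1
    have hl1 : π l = 1 := hl
    refine ⟨r * l, ?_, by rw [map_mul, hl1, mul_one]⟩
    rw [hR₁, map_mul, hl1, mul_one, QuotientGroup.mk_mul]
    have : (l : R ⧸ M) = (r : R ⧸ M)⁻¹ * γ (π r) := hl2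
    rw [this, mul_inv_cancel_left]
  · intro t
    obtain ⟨s, rfl⟩ := hρs t
    have h1 : orbMk K (v (ρ s)) = orbMk K (cY s) := by rw [hvu, hu1]
    obtain ⟨k, ⟨l, hl, rfl⟩, hk⟩ := (orbMk_eq K).1 h1
    have hl1 : π l = 1 := hl
    have h2 : ρ (l • s) = ρ s := by rw [heq, hl1, one_smul]
    refine ⟨l • s, ?_, h2⟩
    change cY (l • s) = v (ρ (l • s))
    rw [h2, hcY]
    exact hk
  · intro r hr s hs
    change cY (r • s) = v (ρ (r • s))
    have hs' : cY s = v (ρ s) := hs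
    rw [hcY, heq, hγv, ← hs', (hR₁ r).1 hr]
  · intro s hs s' hs' h
    obtain ⟨l, hl, rfl⟩ := hfib s s' h
    refine ⟨l, ?_, hl, rfl⟩
    have h1 : cY s = v (ρ s) := hs
    have h2 : cY (l • s) = v (ρ (l • s)) := hs'
    rw [hcY, ← h, ← h1] at h2
    have h3 : (l : R ⧸ M) = 1 := hKfree _ ⟨l, hl, rfl⟩ _ h2
    rw [hR₁, h3, hl, map_one]

end Pool.Agent.Hhelper13.Piles
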