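import Pool.Agent.Hhelper13.Pile.Step

/-!
# Splitting of rigid covers of projective piles (Zorn's lemma)
-/

universe u

open Topology

namespace Pool.Agent.Hhelper13.Piles

section Zorn

variable {E W : Type u} [Group E] [TopologicalSpace E] [IsTopologicalGroup E] [CompactSpace E]
  [TotallyDisconnectedSpace E]
  [TopologicalSpace W] [CompactSpace W] [T2Space W] [TotallyDisconnectedSpace W]
  [MulAction E W] [ContinuousSMul E W]
  {P : Pile.{u}} (π : E →* P.G) (ρ : W → P.T)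

/-- closed sub-piles which are rigid covers of `P` -/
structure Good (R : Subgroup E) (S : Set W) : Prop where
  clR : IsClosed (R : Set E)
  clS : IsClosed S
  ontoG : ∀ g, ∃ r ∈ R, π r = g
  ontoT : ∀ t, ∃ s ∈ S, ρ s = t
  inv : ∀ r ∈ R, ∀ s ∈ S, r • s ∈ S
  fib : ∀ s ∈ S, ∀ s' ∈ S, ρ s = ρ s' → ∃ r ∈ R, π r = 1 ∧ s' = r • s
  free : ∀ r ∈ R, ∀ s ∈ S, π r = 1 → r • s = s → r = 1

theorem good_step (hP : P.IsProjective) (hπ : Continuous π) (hρ : Continuous ρ)
    (heq : ∀ (r : E) (s : W), ρ (r • s) = π r • ρ s)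
    (R : Subgroup E) (S : Set W) (h : Good π ρ R S) (r₀ : E) (hr₀R : r₀ ∈ R) (hr₀ : π r₀ = 1)
    (hr₀1 : r₀ ≠ 1) :
    ∃ (R₁ : Subgroup E) (S₁ : Set W), R₁ ≤ R ∧ S₁ ⊆ S ∧ r₀ ∉ R₁ ∧ Good π ρ R₁ S₁ := by
  haveI : CompactSpace R := isCompact_iff_compactSpace.1 h.clR.isCompact
  haveI : CompactSpace S := isCompact_iff_compactSpace.1 h.clS.isCompact
  letI : MulAction R S :=
    { smul := fun r s => ⟨(r : E) • (s : W), h.inv r r.2 s s.2⟩
      one_smul := fun s => Subtype.ext (one_smul E (s : W))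
      mul_smul := fun a b s => Subtype.ext (mul_smul (a : E) (b : E) (s : W)) }
  haveI : ContinuousSMul R S := ⟨by
    refine Continuous.subtype_mk ?_ _
    exact (continuous_subtype_val.comp continuous_fst).smul
      (continuous_subtype_val.comp continuous_snd)⟩
  obtain ⟨R₁, S₁, c1, c2, c3, c4, c5, c6, c7⟩ := step (R := R) (S := S) P hP
    (π.comp R.subtype) (hπ.comp continuous_subtype_val)
    (fun g => by
      obtain ⟨r, hr, hg⟩ := h.ontoG g
      exact ⟨⟨r, hr⟩, hg⟩)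
    (fun s => ρ s) (hρ.comp continuous_subtype_val)
    (fun t => by
      obtain ⟨s, hs, ht⟩ := h.ontoT t
      exact ⟨⟨s, hs⟩, ht⟩)
    (fun r s => heq r s)
    (fun r s h1 h2 => Subtype.ext (h.free r r.2 s s.2 h1 (congrArg Subtype.val h2)))
    (fun s s' hss => by
      obtain ⟨r, hr, h1, h2⟩ := h.fib s s.2 s' s'.2 hss
      exact ⟨⟨r, hr⟩, h1, Subtype.ext h2⟩)
    ⟨r₀, hr₀R⟩ hr₀ (fun hcon => hr₀1 (congrArg Subtype.val hcon))
  refine ⟨R₁.map R.subtype, Subtype.val '' S₁, ?_, ?_, ?_, ?_⟩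
  · rintro _ ⟨r, _, rfl⟩
    exact r.2
  · rintro _ ⟨s, _, rfl⟩
    exact s.2
  · rintro ⟨r, hr, hrr⟩
    have : r = ⟨r₀, hr₀R⟩ := Subtype.ext hrr
    rw [this] at hr
    exact c3 hr
  · constructor
    · have := (h.clR.isClosedEmbedding_subtypeVal).isClosedMap _ c1
      exact this
    · exact (h.clS.isClosedEmbedding_subtypeVal).isClosedMap _ c2
    · intro g
      obtain ⟨r, hr, hg⟩ := c4 g
      exact ⟨r, ⟨r, hr, rfl⟩, hg⟩
    · intro t
      obtain ⟨s, hs, ht⟩ := c5 t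
      exact ⟨s, ⟨s, hs, rfl⟩, ht⟩
    · rintro _ ⟨r, hr, rfl⟩ _ ⟨s, hs, rfl⟩
      exact ⟨r • s, c6 r hr s hs, rfl⟩
    · rintro _ ⟨s, hs, rfl⟩ _ ⟨s', hs', rfl⟩ hss
      obtain ⟨r, hr, h1, h2⟩ := c7 s hs s' hs' hss
      exact ⟨r, ⟨r, hr, rfl⟩, h1, congrArg Subtype.val h2⟩
    · rintro _ ⟨r, hr, rfl⟩ _ ⟨s, hs, rfl⟩ h1 h2
      exact h.free r r.2 s s.2 h1 h2

theorem exists_min (hP : P.IsProjective) (hπ : Continuous π) (hρ : Continuous ρ)
    (heq : ∀ (r : E) (s : W), ρ (r • s) = π r • ρ s)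
    (R₀ : Subgroup E) (S₀ : Set W) (h₀ : Good π ρ R₀ S₀) :
    ∃ (R : Subgroup E) (S : Set W), R ≤ R₀ ∧ S ⊆ S₀ ∧ Good π ρ R S ∧ ∀ r ∈ R, π r = 1 → r = 1 := by
  classical
  let α := (Subgroup E × Set W)ᵒᵈ
  let s : Set α := {z | Good π ρ (OrderDual.ofDual z).1 (OrderDual.ofDual z).2}
  have hz := zorn_le_nonempty₀ s (by
    intro c hcs hc y hy
    haveI : Nonempty c := ⟨⟨y, hy⟩⟩
    let Rz : c → Subgroup E := fun z => (OrderDual.ofDual z.1).1
    let Sz : c → Set W := fun z => (OrderDual.ofDual z.1).2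
    have hgood : ∀ z : c, Good π ρ (Rz z) (Sz z) := fun z => hcs z.2
    have htot : ∀ z z' : c, (Rz z ≤ Rz z' ∧ Sz z ⊆ Sz z') ∨ (Rz z' ≤ Rz z ∧ Sz z' ⊆ Sz z) := by
      intro z z'
      rcases hc.total z.2 z'.2 with h | h
      · right
        exact ⟨(show OrderDual.ofDual z'.1 ≤ OrderDual.ofDual z.1 from h).1,
          (show OrderDual.ofDual z'.1 ≤ OrderDual.ofDual z.1 from h).2⟩
      · left
        exact ⟨(show OrderDual.ofDual z.1 ≤ OrderDual.ofDual z'.1 from h).1,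
          (show OrderDual.ofDual z.1 ≤ OrderDual.ofDual z'.1 from h).2⟩
    let Rc : Subgroup E := ⨅ z, Rz z
    let Sc : Set W := ⋂ z, Sz z
    have hRc : ∀ r, r ∈ Rc ↔ ∀ z, r ∈ Rz z := fun r => Subgroup.mem_iInf
    have hSc : ∀ s, s ∈ Sc ↔ ∀ z, s ∈ Sz z := fun s => Set.mem_iInter
    refine ⟨OrderDual.toDual (Rc, Sc), ?_, ?_⟩
    · change Good π ρ Rc Sc
      constructor
      · have : (Rc : Set E) = ⋂ z, (Rz z : Set E) := Subgroup.coe_iInf
        rw [this]
        exact isClosed_iInter fun z => (hgood z).clR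
      · exact isClosed_iInter fun z => (hgood z).clS
      · intro g
        have hne := IsCompact.nonempty_iInter_of_directed_nonempty_isCompact_isClosed
          (fun z : c => (Rz z : Set E) ∩ π ⁻¹' {g})
          (by
            intro z z'
            rcases htot z z' with h | h
            · exact ⟨z, subset_refl _, Set.inter_subset_inter_left _ h.1⟩
            · exact ⟨z', Set.inter_subset_inter_left _ h.1, subset_refl _⟩)
          (fun z => by
            obtain ⟨r, hr, hg⟩ := (hgood z).ontoG g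
            exact ⟨r, hr, hg⟩)
          (fun z => ((hgood z).clR.inter (isClosed_singleton.preimage hπ)).isCompact)
          (fun z => (hgood z).clR.inter (isClosed_singleton.preimage hπ))
        obtain ⟨r, hr⟩ := hne
        rw [Set.mem_iInter] at hr
        exact ⟨r, (hRc r).2 fun z => (hr z).1, (hr ⟨y, hy⟩).2⟩
      · intro t
        have hne := IsCompact.nonempty_iInter_of_directed_nonempty_isCompact_isClosed
          (fun z : c => Sz z ∩ ρ ⁻¹' {t})
          (by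
            intro z z'
            rcases htot z z' with h | h
            · exact ⟨z, subset_refl _, Set.inter_subset_inter_left _ h.2⟩
            · exact ⟨z', Set.inter_subset_inter_left _ h.2, subset_refl _⟩)
          (fun z => by
            obtain ⟨r, hr, hg⟩ := (hgood z).ontoT t
            exact ⟨r, hr, hg⟩)
          (fun z => ((hgood z).clS.inter (isClosed_singleton.preimage hρ)).isCompact)
          (fun z => (hgood z).clS.inter (isClosed_singleton.preimage hρ))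
        obtain ⟨r, hr⟩ := hne
        rw [Set.mem_iInter] at hr
        exact ⟨r, (hSc r).2 fun z => (hr z).1, (hr ⟨y, hy⟩).2⟩
      · intro r hr s hs
        rw [hSc]
        exact fun z => (hgood z).inv r ((hRc r).1 hr z) s ((hSc s).1 hs z)
      · intro s hs s' hs' hss
        obtain ⟨r, hr, h1, h2⟩ := (hgood ⟨y, hy⟩).fib s ((hSc s).1 hs _) s' ((hSc s').1 hs' _) hss
        refine ⟨r, (hRc r).2 fun z => ?_, h1, h2⟩
        obtain ⟨r', hr', h1', h2'⟩ := (hgood z).fib s ((hSc s).1 hs _) s' ((hSc s').1 hs' _) hss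
        have hfix : (r'⁻¹ * r) • s = s := by
          rw [mul_smul, ← h2, h2', inv_smul_smul]
        have hπ1 : π (r'⁻¹ * r) = 1 := by rw [map_mul, map_inv, h1, h1', inv_one, one_mul]
        have heq1 : r'⁻¹ * r = 1 := by
          rcases htot ⟨y, hy⟩ z with h | h
          · exact (hgood z).free _ ((Rz z).mul_mem ((Rz z).inv_mem hr') (h.1 hr)) s
              ((hSc s).1 hs z) hπ1 hfix
          · exact (hgood ⟨y, hy⟩).free _ ((Rz ⟨y, hy⟩).mul_mem ((Rz ⟨y, hy⟩).inv_mem (h.1 hr')) hr)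
              s ((hSc s).1 hs _) hπ1 hfix
        have : r = r' := (inv_mul_eq_one.1 heq1).symm
        rw [this]
        exact hr'
      · intro r hr s hs h1 h2
        exact (hgood ⟨y, hy⟩).free r ((hRc r).1 hr _) s ((hSc s).1 hs _) h1 h2
    · intro z hz
      change ((Rc, Sc) : Subgroup E × Set W) ≤ OrderDual.ofDual z
      refine ⟨?_, ?_⟩
      · exact iInf_le Rz ⟨z, hz⟩
      · exact Set.iInter_subset Sz ⟨z, hz⟩)
    (OrderDual.toDual (R₀, S₀)) h₀
  obtain ⟨m, hm0, hm⟩ := hz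
  have hmg : Good π ρ (OrderDual.ofDual m).1 (OrderDual.ofDual m).2 := hm.prop
  have hle : OrderDual.ofDual m ≤ (R₀, S₀) := hm0
  refine ⟨(OrderDual.ofDual m).1, (OrderDual.ofDual m).2, hle.1, hle.2, hmg, ?_⟩
  intro r hr hr1
  by_contra hne
  obtain ⟨R₁, S₁, h1, h2, h3, h4⟩ := good_step π ρ hP hπ hρ heq _ _ hmg r hr hr1 hne
  have hle2 : m ≤ OrderDual.toDual (R₁, S₁) := by
    change ((R₁, S₁) : Subgroup E × Set W) ≤ OrderDual.ofDual m
    exact ⟨h1, h2⟩
  have h5 := hm.le_of_ge (y := OrderDual.toDual (R₁, S₁)) h4 hle2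
  have h6 : OrderDual.ofDual m ≤ (R₁, S₁) := h5
  exact h3 (h6.1 hr)

end Zorn

end Pool.Agent.Hhelper13.Piles
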